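import Pool.Agent.LibAA59.Defs

/-!
An acceptance predicate which is not dead has many alternatives.
-/

namespace Pool.Agent.LibAA59

open Pool.Agent.LibAL48

variable {S : SysA} {n : ℕ}

theorem a1 {acc : S.X n → Prop} {x : S.X n} {F Reg : Finset (List Bool)} {q K : ℕ}
    (hc : Cert q acc) (hd : ¬ Dead acc x F Reg (2 * (K * q) + F.card)) :
    ∃ (y : ℕ → S.X n) (C : ℕ → Finset (List Bool)), Alt x F q K y C ∧
      (∀ k < K, Tab (y k) ⊆ Tab x ∪ (Reg : Set (List Bool))) ∧
      ∀ k < K, ∀ x', Same (C k) (y k) x' → acc x' := by
  classical
  have main : ∀ m : ℕ, m ≤ K → ∃ (y : ℕ → S.X n) (C : ℕ → Finset (List Bool)), Alt x F q m y C ∧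
      (∀ k < m, Tab (y k) ⊆ Tab x ∪ (Reg : Set (List Bool))) ∧
      ∀ k < m, ∀ x', Same (C k) (y k) x' → acc x' := by
    intro m
    induction m with
    | zero =>
      intro _
      exact ⟨fun _ => x, fun _ => ∅, ⟨fun k hk => absurd hk (Nat.not_lt_zero _),
        fun k hk => absurd hk (Nat.not_lt_zero _), fun k hk => absurd hk (Nat.not_lt_zero _),
        fun k hk => absurd hk (Nat.not_lt_zero _), fun k hk => absurd hk (Nat.not_lt_zero _)⟩,
        fun k hk => absurd hk (Nat.not_lt_zero _), fun k hk => absurd hk (Nat.not_lt_zero _)⟩
    | succ m ih =>
      intro hm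
      obtain ⟨y, C, h1, h2, h3⟩ := ih (by omega)
      set G0 := (Finset.range m).biUnion C with hG0
      have hG0c : G0.card ≤ K * q := by
        calc G0.card ≤ (Finset.range m).card * q :=
              Finset.card_biUnion_le_card_mul _ _ _ fun k hk => h1.card k (Finset.mem_range.1 hk)
          _ = m * q := by rw [Finset.card_range]
          _ ≤ K * q := Nat.mul_le_mul_right _ (by omega)
      set G := G0 ∪ (S.bad (F ∪ G0)).image S.ask with hG
      have hGc : G.card ≤ 2 * (K * q) + F.card := by
        have e1 := Finset.card_union_le G0 ((S.bad (F ∪ G0)).image S.ask)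
        have e2 := Finset.card_image_le (s := S.bad (F ∪ G0)) (f := S.ask)
        have e3 := S.card_bad (F ∪ G0)
        have e4 := Finset.card_union_le F G0
        rw [hG]
        omega
      have h4 : ∃ y0, Fut x (F ∪ G) Reg y0 ∧ acc y0 := by
        by_contra hcon
        exact hd ⟨G, hGc, fun x' hx' hacc => hcon ⟨x', hx', hacc⟩⟩
      obtain ⟨y0, ⟨f1, f2, f3⟩, hacc⟩ := h4
      obtain ⟨C0, hC0, hcert⟩ := hc _ hacc
      obtain ⟨y1, t1, t2⟩ := exists_tab y0 (F ∪ G0 ∪ C0) (Tab x ∪ (Tab y0 ∩ {s | s ∈
        S.bad (F ∪ G0 ∪ C0)})) (by
          rintro s (hs | hs)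
          · exact hs.1
          · exact hs.1.1) (by
          intro s hs
          constructor
          · rintro (h | h)
            · exact f1 h
            · exact h.1
          · exact fun h => Or.inr ⟨h, hs⟩)
      have hr : F ∪ (Finset.range (m + 1)).biUnion (Function.update C m C0) = F ∪ G0 ∪ C0 := by
        rw [Finset.range_add_one, Finset.biUnion_insert, Function.update_self,
          Finset.union_assoc, Finset.union_comm C0]
        congr 2
        rw [hG0]
        refine Finset.biUnion_congr rfl fun k hk => ?_
        rw [Function.update_of_ne (by have := Finset.mem_range.1 hk; omega)]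
      have hr' : ∀ k ≤ m, (Finset.range k).biUnion (Function.update C m C0) =
          (Finset.range k).biUnion C := by
        intro k hk
        refine Finset.biUnion_congr rfl fun j hj => ?_
        rw [Function.update_of_ne (by have := Finset.mem_range.1 hj; omega)]
      refine ⟨Function.update y m y1, Function.update C m C0, ⟨?_, ?_, ?_, ?_, ?_⟩, ?_, ?_⟩
      · intro k hk
        rcases Nat.lt_succ_iff_lt_or_eq.1 hk with hk | rfl
        · rw [Function.update_of_ne (by omega)]
          exact h1.card k hk
        · rw [Function.update_self]
          exact hC0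
      · intro k hk
        rcases Nat.lt_succ_iff_lt_or_eq.1 hk with hk | rfl
        · rw [Function.update_of_ne (by omega)]
          exact h1.sub k hk
        · rw [Function.update_self, t1]
          exact Set.subset_union_left
      · intro k hk
        rw [hr' k (by omega)]
        rcases Nat.lt_succ_iff_lt_or_eq.1 hk with hk | rfl
        · rw [Function.update_of_ne (by omega)]
          exact h1.same k hk
        · rw [Function.update_self]
          refine (f3.mono ?_).trans (t2.mono Finset.subset_union_left)
          exact Finset.union_subset_union_right Finset.subset_union_left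
      · intro k hk
        rw [hr' k (by omega)]
        rcases Nat.lt_succ_iff_lt_or_eq.1 hk with hk | rfl
        · rw [Function.update_of_ne (by omega)]
          exact h1.old k hk
        · rw [Function.update_self, t1]
          rintro s hs (h | h)
          · exact h
          · exact (Same.tab f3 (Finset.mem_union_right _ (Finset.mem_union_right _
              (Finset.mem_image_of_mem S.ask hs)))).1 h.1
      · intro k hk s
        rcases Nat.lt_succ_iff_lt_or_eq.1 hk with hk | rfl
        · rw [hr' (k + 1) (by omega), Function.update_of_ne (by omega)]
          exact h1.new k hk s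
        · rw [Function.update_self, t1, hr]
          rintro (h | h) hn
          · exact absurd h hn
          · exact h.2
      · intro k hk
        rcases Nat.lt_succ_iff_lt_or_eq.1 hk with hk | rfl
        · rw [Function.update_of_ne (by omega)]
          exact h2 k hk
        · rw [Function.update_self, t1]
          rintro s (h | h)
          · exact Or.inl h
          · exact f2 h.1
      · intro k hk
        rcases Nat.lt_succ_iff_lt_or_eq.1 hk with hk | rfl
        · rw [Function.update_of_ne (by omega), Function.update_of_ne (by omega)]
          exact h3 k hk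
        · rw [Function.update_self, Function.update_self]
          exact fun x' hx' => hcert x' ((t2.mono Finset.subset_union_right).trans hx')
  exact main K le_rfl

end Pool.Agent.LibAA59
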