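import Pool.Agent.LibAA59.A1

/-!
One block: all items which are not dead are made accepting at once.
-/

namespace Pool.Agent.LibAA59

open Pool.Agent.LibAL48

variable {S : SysA} {n : ℕ}

theorem KK_mono {m m' q σ : ℕ} (h : m ≤ m') : KK m q σ ≤ KK m' q σ := by
  unfold KK
  gcongr

theorem dead_mono {acc : S.X n → Prop} {x : S.X n} {F Reg : Finset (List Bool)} {M M' : ℕ}
    (h : Dead acc x F Reg M) (hM : M ≤ M') : Dead acc x F Reg M' := by
  obtain ⟨G, hG, h1⟩ := h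
  exact ⟨G, hG.trans hM, h1⟩

theorem a3 (hS : Sim S) {ι : Type} (Z : Finset ι) (acc : ι → S.X n → Prop) {q m : ℕ}
    (hc : ∀ z ∈ Z, Cert q (acc z)) (x : S.X n) (F Reg : Finset (List Bool)) (hm : Z.card ≤ m)
    (hd : ∀ z ∈ Z, ¬ Dead (acc z) x F Reg (MM m q F.card)) :
    ∃ (x' : S.X n) (F' : Finset (List Bool)), Fut x F Reg x' ∧ F ⊆ F' ∧
      F'.card ≤ F.card + Z.card * q ∧ ∀ z ∈ Z, ∀ x'', Same F' x' x'' → acc z x'' := by
  classical
  have h1 : ∀ z : ι, ∃ (y : ℕ → S.X n) (C : ℕ → Finset (List Bool)), z ∈ Z →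
      Alt x F q (KK m q F.card) y C ∧
      (∀ k < KK m q F.card, Tab (y k) ⊆ Tab x ∪ (Reg : Set (List Bool))) ∧
      ∀ k < KK m q F.card, ∀ x', Same (C k) (y k) x' → acc z x' := by
    intro z
    by_cases hz : z ∈ Z
    · obtain ⟨y, C, h2⟩ := a1 (hc z hz) (hd z hz)
      exact ⟨y, C, fun _ => h2⟩
    · exact ⟨fun _ => x, fun _ => ∅, fun h => absurd h hz⟩
  choose y C h2 using h1
  obtain ⟨κ, x', k1, k2, k3, k4⟩ := hS n ι Z x F q (KK m q F.card) y C (KK_mono hm)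
    (fun z hz => (h2 z hz).1)
  refine ⟨x', F ∪ Z.biUnion fun z => C z (κ z), ⟨?_, ?_, k2⟩, Finset.subset_union_left, ?_, ?_⟩
  · exact fun s hs => (k3 s).2 (Or.inl hs)
  · intro s hs
    rcases (k3 s).1 hs with h | ⟨z, hz, h⟩
    · exact Or.inl h
    · exact (h2 z hz).2.1 (κ z) (k1 z hz) h
  · refine (Finset.card_union_le _ _).trans (Nat.add_le_add_left ?_ _)
    exact Finset.card_biUnion_le_card_mul _ _ _ fun z hz => (h2 z hz).1.card (κ z) (k1 z hz)
  · intro z hz x'' hx''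
    refine (h2 z hz).2.2 (κ z) (k1 z hz) x'' ((k4 z hz).trans (hx''.mono ?_))
    exact (Finset.subset_biUnion_of_mem (fun z => C z (κ z)) hz).trans Finset.subset_union_right

end Pool.Agent.LibAA59
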