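import Pool.Agent.LibAA59.A3

/-!
One layer: the good block.
-/

namespace Pool.Agent.LibAA59

open Pool.Agent.LibAL48

variable {S : SysA} {n : ℕ}

theorem MM_mono {m q σ σ' : ℕ} (h : σ ≤ σ') : MM m q σ ≤ MM m q σ' := by
  unfold MM KK
  gcongr

/-- The growth of the protected set in one layer: `m` items, certificates of size `q`, `B` blocks,
`σ` protected queries before. -/
def gb (m q B σ : ℕ) : ℕ := (σ + B * (m * q)) + m * MM m q (σ + B * (m * q))

open Classical in
theorem a4 (hS : Sim S) {ι γ : Type} (Z : Finset ι) (acc : ι → S.X n → Prop) {q m : ℕ}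
    (hm : Z.card ≤ m) (hc : ∀ z ∈ Z, Cert q (acc z)) (x : S.X n) (F : Finset (List Bool))
    (Reg : ℕ → Finset (List Bool)) (gr : ι → γ) (Γ : Finset γ)
    (N : γ → ℕ) (hN : ∀ g ∈ Γ, (Z.filter fun z => gr z = g).card ≤ N g) {R B : ℕ} (hB0 : 0 < B)
    (hB : 2 ^ R * Γ.card ≤ B) :
    ∃ b < B, ∃ (x' : S.X n) (F' : Finset (List Bool)) (D : Finset ι),
      Fut x F ((Finset.range b).biUnion Reg) x' ∧ F ⊆ F' ∧ F'.card ≤ gb m q B F.card ∧ D ⊆ Z ∧
      (∀ z ∈ D, ∀ x'', Fut x' F' (Reg b) x'' → ¬ acc z x'') ∧
      ∀ g ∈ Γ, 2 ^ R * (Z.filter fun z => gr z = g ∧ z ∉ D ∧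
        ¬ ∀ x'', Fut x' F' (Reg b) x'' → acc z x'').card ≤ N g := by
  by_contra hgood
  have hmain : ∀ b ≤ B, ∃ (xb : S.X n) (Fb : Finset (List Bool)) (Done : Finset ι) (c : γ → ℕ),
      Fut x F ((Finset.range b).biUnion Reg) xb ∧ F ⊆ Fb ∧
      Fb.card ≤ F.card + b * (m * q) ∧ Done ⊆ Z ∧
      (∀ z ∈ Done, ∀ x'', Same Fb xb x'' → acc z x'') ∧
      ∑ g ∈ Γ, c g = b ∧
      ∀ g ∈ Γ, c g * (N g + 1) ≤ 2 ^ R * (Done.filter fun z => gr z = g).card := by
    intro b
    induction b with
    | zero =>
      intro _
      exact ⟨x, F, ∅, fun _ => 0, Fut.refl _ _ _,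
        Finset.Subset.refl _, by simp, Finset.empty_subset _, by simp, by simp, by simp⟩
    | succ b ih =>
      intro hb
      obtain ⟨xb, Fb, Done, c, h1, h4, h5, h6, h7, h8, h9⟩ := ih (by omega)
      obtain ⟨Zb, hZb⟩ : ∃ Zb, Zb = (Z \ Done).filter fun z =>
          ¬ Dead (acc z) xb Fb (Reg b) (MM m q Fb.card) := ⟨_, rfl⟩
      have hZbZ : Zb ⊆ Z := by
        rw [hZb]
        exact (Finset.filter_subset _ _).trans Finset.sdiff_subset
      by_cases hstop : ∀ g ∈ Γ, 2 ^ R * (Zb.filter fun z => gr z = g).card ≤ N g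
      · -- the block is good
        exfalso
        apply hgood
        have hdead : ∀ z ∈ (Z \ Done) \ Zb, ∃ G : Finset (List Bool),
            G.card ≤ MM m q Fb.card ∧ ∀ x', Fut xb (Fb ∪ G) (Reg b) x' → ¬ acc z x' := by
          intro z hz
          rw [Finset.mem_sdiff, hZb, Finset.mem_filter, not_and, not_not] at hz
          exact hz.2 hz.1
        choose! G hG1 hG2 using hdead
        refine ⟨b, by omega, xb, Fb ∪ ((Z \ Done) \ Zb).biUnion G, (Z \ Done) \ Zb, h1,
          h4.trans Finset.subset_union_left, ?_, Finset.sdiff_subset.trans Finset.sdiff_subset,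
          ?_, ?_⟩
        · have h10 : (((Z \ Done) \ Zb).biUnion G).card ≤ m * MM m q Fb.card := by
            refine (Finset.card_biUnion_le_card_mul _ _ _ hG1).trans ?_
            exact Nat.mul_le_mul_right _ ((Finset.card_le_card
              (Finset.sdiff_subset.trans Finset.sdiff_subset)).trans hm)
          have h11 : b * (m * q) ≤ B * (m * q) := Nat.mul_le_mul_right _ (by omega)
          have h12 := Finset.card_union_le Fb (((Z \ Done) \ Zb).biUnion G)
          have h13 : m * MM m q Fb.card ≤ m * MM m q (F.card + B * (m * q)) :=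
            Nat.mul_le_mul_left _ (MM_mono (by omega))
          unfold gb
          omega
        · intro z hz x'' hx''
          refine hG2 z hz x'' (hx''.mono ?_ subset_rfl)
          exact Finset.union_subset_union_right (Finset.subset_biUnion_of_mem G hz)
        · intro g hg
          refine le_trans (Nat.mul_le_mul_left _ (Finset.card_le_card ?_)) (hstop g hg)
          intro z hz
          rw [Finset.mem_filter] at hz ⊢
          obtain ⟨hz1, hz2, hz3, hz4⟩ := hz
          refine ⟨?_, hz2⟩
          by_contra hcon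
          by_cases hd : z ∈ Done
          · exact hz4 fun x'' hx'' => h7 z hd x'' (hx''.2.2.mono Finset.subset_union_left)
          · exact hz3 (Finset.mem_sdiff.2 ⟨Finset.mem_sdiff.2 ⟨hz1, hd⟩, hcon⟩)
      · -- the block is not good: go on
        push Not at hstop
        obtain ⟨g₀, hg₀, hlt⟩ := hstop
        obtain ⟨x', F', k1, k4, k5, k6⟩ := a3 hS Zb acc (fun z hz => hc z (hZbZ hz)) xb Fb
          (Reg b) ((Finset.card_le_card hZbZ).trans hm) (fun z hz => by
            rw [hZb, Finset.mem_filter] at hz
            exact hz.2)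
        have hdisj : Disjoint Done Zb := by
          rw [Finset.disjoint_right]
          intro z hz
          rw [hZb, Finset.mem_filter, Finset.mem_sdiff] at hz
          exact hz.1.2
        have hsub : (Finset.range b).biUnion Reg ⊆ (Finset.range (b + 1)).biUnion Reg :=
          Finset.biUnion_subset_biUnion_of_subset_left _
            (Finset.range_subset_range.2 (Nat.le_succ b))
        have hsub' : Reg b ⊆ (Finset.range (b + 1)).biUnion Reg :=
          Finset.subset_biUnion_of_mem Reg (Finset.mem_range.2 (Nat.lt_succ_self b))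
        refine ⟨x', F', Done ∪ Zb, Function.update c g₀ (c g₀ + 1),
          (h1.mono subset_rfl hsub).trans (k1.mono subset_rfl hsub') h4,
          h4.trans k4, ?_, Finset.union_subset h6 hZbZ, ?_, ?_, ?_⟩
        · have h10 : Zb.card * q ≤ m * q :=
            Nat.mul_le_mul_right _ ((Finset.card_le_card hZbZ).trans hm)
          calc F'.card ≤ Fb.card + Zb.card * q := k5
            _ ≤ (F.card + b * (m * q)) + m * q := Nat.add_le_add h5 h10
            _ = F.card + (b + 1) * (m * q) := by ring
        · intro z hz x'' hx''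
          rcases Finset.mem_union.1 hz with hz | hz
          · exact h7 z hz x'' (k1.2.2.trans (hx''.mono k4))
          · exact k6 z hz x'' hx''
        · rw [Finset.sum_update_of_mem hg₀]
          have h10 := Finset.add_sum_erase Γ c hg₀
          rw [← Finset.sdiff_singleton_eq_erase] at h10
          omega
        · intro g hg
          have h10 : ((Done ∪ Zb).filter fun z => gr z = g).card =
              (Done.filter fun z => gr z = g).card + (Zb.filter fun z => gr z = g).card := by
            rw [Finset.filter_union, Finset.card_union_of_disjoint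
              (Finset.disjoint_filter_filter hdisj)]
          rw [h10, Nat.mul_add (2 ^ R)]
          by_cases hgg : g = g₀
          · rw [hgg, Function.update_self]
            have h11 := h9 g₀ hg₀
            calc (c g₀ + 1) * (N g₀ + 1) = c g₀ * (N g₀ + 1) + (N g₀ + 1) := by ring
              _ ≤ _ := Nat.add_le_add h11 hlt
          · rw [Function.update_of_ne hgg]
            exact (h9 g hg).trans (Nat.le_add_right _ _)
  obtain ⟨xb, Fb, Done, c, -, -, -, h6, -, h8, h9⟩ := hmain B le_rfl
  have hlt : ∀ g ∈ Γ, c g < 2 ^ R := by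
    intro g hg
    have h1 : (Done.filter fun z => gr z = g).card ≤ N g :=
      (Finset.card_le_card (Finset.filter_subset_filter _ h6)).trans (hN g hg)
    have h2 : c g * (N g + 1) ≤ 2 ^ R * N g := (h9 g hg).trans (Nat.mul_le_mul_left _ h1)
    by_contra hcon
    have h3 : 2 ^ R * (N g + 1) ≤ c g * (N g + 1) := Nat.mul_le_mul_right _ (not_lt.1 hcon)
    have h4 : 0 < 2 ^ R := by positivity
    have h5 : 2 ^ R * (N g + 1) = 2 ^ R * N g + 2 ^ R := by ring
    omega
  rcases Finset.eq_empty_or_nonempty Γ with h0 | h0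
  · rw [h0, Finset.sum_empty] at h8
    omega
  · have h1 : ∑ g ∈ Γ, c g < ∑ _g ∈ Γ, 2 ^ R := Finset.sum_lt_sum_of_nonempty h0 hlt
    rw [h8, Finset.sum_const, smul_eq_mul, mul_comm] at h1
    omega

end Pool.Agent.LibAA59
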