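import Pool.Agent.LibAA59.Defs

/-!
The end of a stage, approximation: many errors.
-/

namespace Pool.Agent.LibAA59

open Pool.Agent.LibAL48

variable {S : SysA} {n : ℕ}

open Classical in
theorem a5 {ι : Type} (Y : Finset ι) (acc : ι → S.X n → Prop) (fib : ι → Finset (List Bool))
    (hfib : ∀ i ∈ Y, ∀ s ∈ fib i, s.length = n) {q : ℕ} (hc : ∀ i ∈ Y, Cert q (acc i)) (x : S.X n)
    (F : Finset (List Bool)) (hQ : ∀ i ∈ Y, ∀ s ∈ fib i, s ∉ Tab x)
    (hF : ∀ i ∈ Y, F.card + Y.card * q < (fib i).card) :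
    ∃ x', Fut x F (Y.biUnion fib) x' ∧
      Y.card ≤ 2 * (Y.filter fun i => (acc i x' ↔ ∃ s ∈ fib i, s ∈ Tab x')).card := by
  have hsum := Finset.card_filter_add_card_filter_not (s := Y) (fun i => acc i x)
  by_cases hcase : Y.card ≤ 2 * (Y.filter fun i => ¬ acc i x).card
  · refine ⟨x, Fut.refl _ _ _, hcase.trans ?_⟩
    apply Nat.mul_le_mul_left
    apply Finset.card_le_card
    intro i hi
    rw [Finset.mem_filter] at hi ⊢
    refine ⟨hi.1, fun h => absurd h hi.2, ?_⟩
    rintro ⟨s, hs, hs'⟩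
    exact absurd hs' (hQ i hi.1 s hs)
  · have hY1 : Y.card ≤ 2 * (Y.filter fun i => acc i x).card := by omega
    have hV : ∀ i, ∃ V : Finset (List Bool), i ∈ Y → acc i x → V.card ≤ q ∧
        ∀ x', Same V x x' → acc i x' := by
      intro i
      by_cases h : i ∈ Y ∧ acc i x
      · obtain ⟨V, h1, h2⟩ := hc i h.1 x h.2
        exact ⟨V, fun _ _ => ⟨h1, h2⟩⟩
      · exact ⟨∅, fun h1 h2 => absurd ⟨h1, h2⟩ h⟩
    choose V hV using hV
    set Y1 := Y.filter fun i => acc i x with hY1def
    set F1 := F ∪ Y1.biUnion V with hF1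
    have hcard : F1.card ≤ F.card + Y.card * q := by
      refine (Finset.card_union_le _ _).trans (Nat.add_le_add_left ?_ _)
      refine (Finset.card_biUnion_le_card_mul Y1 V q fun i hi => ?_).trans
        (Nat.mul_le_mul_right _ (Finset.card_filter_le _ _))
      rw [hY1def, Finset.mem_filter] at hi
      exact (hV i hi.1 hi.2).1
    have hw : ∀ i, ∃ w : List Bool, i ∈ Y1 → w ∈ fib i ∧ w ∉ S.bad F1 := by
      intro i
      by_cases h : i ∈ Y1
      · have hiY : i ∈ Y := (Finset.mem_filter.1 h).1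
        obtain ⟨w, h1, h2⟩ := Finset.exists_mem_notMem_of_card_lt_card
          (lt_of_le_of_lt ((S.card_bad F1).trans hcard) (hF i hiY))
        exact ⟨w, fun _ => ⟨h1, h2⟩⟩
      · exact ⟨[], fun h1 => absurd h1 h⟩
    choose w hw using hw
    obtain ⟨x', t1, t2⟩ := exists_add x F1 (Y1.image w) (by
      intro s hs
      obtain ⟨i, hi, rfl⟩ := Finset.mem_image.1 hs
      exact hfib i (Finset.mem_filter.1 hi).1 _ (hw i hi).1) (by
      rw [Finset.disjoint_left]
      intro s hs
      obtain ⟨i, hi, rfl⟩ := Finset.mem_image.1 hs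
      exact (hw i hi).2)
    refine ⟨x', ⟨?_, ?_, t2.mono Finset.subset_union_left⟩,
      hY1.trans (Nat.mul_le_mul_left _ (Finset.card_le_card ?_))⟩
    · rw [t1]
      exact Set.subset_union_left
    · rw [t1]
      refine Set.union_subset_union_right _ (Finset.coe_subset.2 ?_)
      intro s hs
      obtain ⟨i, hi, rfl⟩ := Finset.mem_image.1 hs
      exact Finset.mem_biUnion.2 ⟨i, (Finset.mem_filter.1 hi).1, (hw i hi).1⟩
    · intro i hi
      have hi' := Finset.mem_filter.1 hi
      rw [Finset.mem_filter]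
      have hacc : acc i x' := by
        refine (hV i hi'.1 hi'.2).2 x' (t2.mono ?_)
        exact (Finset.subset_biUnion_of_mem V hi).trans Finset.subset_union_right
      refine ⟨hi'.1, fun _ => ⟨w i, (hw i hi).1, ?_⟩, fun _ => hacc⟩
      rw [t1]
      exact Or.inr (Finset.mem_coe.2 (Finset.mem_image_of_mem w hi))

end Pool.Agent.LibAA59
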