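import Pool.Agent.LibAA59.Defs

/-!
The end of a stage, advice: every advice string is wrong somewhere.
-/

namespace Pool.Agent.LibAA59

open Pool.Agent.LibAL48

variable {S : SysA} {n : ℕ}

open Classical in
theorem a6 {ι κ : Type} (Adv : Finset κ) (Y : Finset ι) (acc : κ → ι → S.X n → Prop)
    (fib : ι → Finset (List Bool)) (hfib : ∀ i ∈ Y, ∀ s ∈ fib i, s.length = n) {q : ℕ}
    (hc : ∀ v ∈ Adv, ∀ i ∈ Y, Cert q (acc v i)) (x : S.X n) (F : Finset (List Bool))
    (hQ : ∀ i ∈ Y, ∀ s ∈ fib i, s ∉ Tab x)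
    (hdis : ∀ i ∈ Y, ∀ j ∈ Y, i ≠ j → Disjoint (fib i) (fib j))
    (hF : ∀ i ∈ Y, F.card + Adv.card * q < (fib i).card) (hAY : Adv.card ≤ Y.card) :
    ∃ x', Fut x F (Y.biUnion fib) x' ∧
      ∀ v ∈ Adv, ∃ i ∈ Y, (acc v i x' ↔ ∃ s ∈ fib i, s ∈ Tab x') := by
  have key : ∀ t : ℕ, t ≤ Adv.card →
      (∃ x', Fut x F (Y.biUnion fib) x' ∧
        ∀ v ∈ Adv, ∃ i ∈ Y, (acc v i x' ↔ ∃ s ∈ fib i, s ∈ Tab x')) ∨
      ∃ (x₁ : S.X n) (F₁ : Finset (List Bool)) (U : Finset ι) (K : Finset κ), U ⊆ Y ∧ U.card ≤ t ∧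
        Fut x F (U.biUnion fib) x₁ ∧ F ⊆ F₁ ∧ F₁.card ≤ F.card + t * q ∧ K ⊆ Adv ∧ t ≤ K.card ∧
        ∀ v ∈ K, ∃ i ∈ Y, (∃ s ∈ fib i, s ∈ Tab x₁) ∧ ∀ x₂, Same F₁ x₁ x₂ → acc v i x₂ := by
    intro t
    induction t with
    | zero =>
      intro _
      right
      refine ⟨x, F, ∅, ∅, Finset.empty_subset _, le_rfl, Fut.refl _ _ _, Finset.Subset.refl _, ?_,
        Finset.empty_subset _, le_rfl, ?_⟩
      · rw [zero_mul, add_zero]
      · intro v hv
        exact absurd hv (Finset.notMem_empty _)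
    | succ t ih =>
      intro ht
      rcases ih (by omega) with h | ⟨x₁, F₁, U, K, hUY, hU, hfut, hFF, hF₁, hK, hKt, hkill⟩
      · exact Or.inl h
      have hsub : U.biUnion fib ⊆ Y.biUnion fib := Finset.biUnion_subset_biUnion_of_subset_left _ hUY
      by_cases hcon : ∀ v ∈ Adv, ∃ i ∈ Y, (acc v i x₁ ↔ ∃ s ∈ fib i, s ∈ Tab x₁)
      · exact Or.inl ⟨x₁, hfut.mono subset_rfl hsub, hcon⟩
      right
      push Not at hcon
      obtain ⟨v, hv, hvx⟩ := hcon
      have hvK : v ∉ K := by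
        intro h
        obtain ⟨i, hi, ⟨s, hs, hsP⟩, hacc⟩ := hkill v h
        have h1 := hacc x₁ (Same.refl _ _)
        rcases hvx i hi with ⟨-, h2⟩ | ⟨h2, -⟩
        · exact h2 s hs hsP
        · exact h2 h1
      obtain ⟨i, hiY, hiU⟩ := Finset.exists_mem_notMem_of_card_lt_card (show U.card < Y.card by omega)
      have hfx : ∀ s ∈ fib i, s ∉ Tab x₁ := by
        intro s hs hsQ
        rcases hfut.2.1 hsQ with h | h
        · exact hQ i hiY s hs h
        · obtain ⟨j, hj, hsj⟩ := Finset.mem_biUnion.1 (Finset.mem_coe.1 h)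
          have hij : i ≠ j := by
            rintro rfl
            exact hiU hj
          exact Finset.disjoint_left.1 (hdis i hiY j (hUY hj) hij) hs hsj
      have hacc : acc v i x₁ := by
        rcases hvx i hiY with ⟨h1, -⟩ | ⟨-, s, hs, hsQ⟩
        · exact h1
        · exact absurd hsQ (hfx s hs)
      obtain ⟨V, hVq, hV⟩ := hc v hv i hiY x₁ hacc
      have hF₂ : (F₁ ∪ V).card ≤ F.card + (t + 1) * q := by
        refine (Finset.card_union_le _ _).trans ?_
        rw [add_mul, one_mul]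
        omega
      have hlt : (S.bad (F₁ ∪ V)).card < (fib i).card := by
        refine lt_of_le_of_lt (((S.card_bad _).trans hF₂).trans ?_) (hF i hiY)
        exact Nat.add_le_add_left (Nat.mul_le_mul_right _ ht) _
      obtain ⟨w, hw, hwF⟩ := Finset.exists_mem_notMem_of_card_lt_card hlt
      obtain ⟨x₂, t1, t2⟩ := exists_add x₁ (F₁ ∪ V) {w} (by
        intro s hs
        rw [Finset.mem_singleton] at hs
        rw [hs]
        exact hfib i hiY w hw) (by
        rw [Finset.disjoint_singleton_left]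
        exact hwF)
      refine ⟨x₂, F₁ ∪ V, insert i U, insert v K, Finset.insert_subset hiY hUY,
        (Finset.card_insert_le _ _).trans (by omega), ⟨?_, ?_, ?_⟩,
        hFF.trans Finset.subset_union_left, hF₂, Finset.insert_subset hv hK, ?_, ?_⟩
      · rw [t1]
        exact hfut.1.trans Set.subset_union_left
      · rw [t1]
        rintro s (hs | hs)
        · rcases hfut.2.1 hs with h | h
          · exact Or.inl h
          · refine Or.inr (Finset.mem_coe.2 ?_)
            exact Finset.biUnion_subset_biUnion_of_subset_left _ (Finset.subset_insert _ _)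
              (Finset.mem_coe.1 h)
        · refine Or.inr (Finset.mem_coe.2 (Finset.mem_biUnion.2 ⟨i, Finset.mem_insert_self _ _, ?_⟩))
          rw [Finset.coe_singleton, Set.mem_singleton_iff] at hs
          rw [hs]
          exact hw
      · exact hfut.2.2.trans (t2.mono (hFF.trans Finset.subset_union_left))
      · rw [Finset.card_insert_of_notMem hvK]
        omega
      · intro v' hv'
        rcases Finset.mem_insert.1 hv' with rfl | hv'
        · refine ⟨i, hiY, ⟨w, hw, ?_⟩, fun x₃ hx₃ => hV x₃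
            ((t2.mono Finset.subset_union_right).trans (hx₃.mono Finset.subset_union_right))⟩
          rw [t1]
          exact Or.inr (by simp)
        · obtain ⟨i', hi', ⟨s, hs, hsP⟩, h1⟩ := hkill v' hv'
          refine ⟨i', hi', ⟨s, hs, ?_⟩, fun x₃ hx₃ => h1 x₃
            ((t2.mono Finset.subset_union_left).trans (hx₃.mono Finset.subset_union_left))⟩
          rw [t1]
          exact Or.inl hsP
  rcases key Adv.card le_rfl with h | ⟨x₁, F₁, U, K, hUY, hU, hfut, hFF, hF₁, hK, hKt, hkill⟩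
  · exact h
  have hKA : K = Adv := Finset.eq_of_subset_of_card_le hK hKt
  refine ⟨x₁, hfut.mono subset_rfl (Finset.biUnion_subset_biUnion_of_subset_left _ hUY),
    fun v hv => ?_⟩
  obtain ⟨i, hi, ⟨s, hs, hsP⟩, hacc⟩ := hkill v (hKA ▸ hv)
  exact ⟨i, hi, fun _ => ⟨s, hs, hsP⟩, fun _ => hacc x₁ (Same.refl _ _)⟩

end Pool.Agent.LibAA59
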