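import Mathlib

/-!
Row CH: a choice avoiding obstructed values and conflicts between pairs.
-/

namespace Pool.Agent.LibAA59

open Finset in
/-- One coordinate is bad for at most `q` of its values: few functions are bad (this is `a2_key` of
LibAV75/A2.lean, proved; kept here as a template for `key2`). -/
theorem key1 {Z : Type} [Fintype Z] [DecidableEq Z] {K : ℕ} (z : Z) (B : Finset (Z → Fin K))
    (q : ℕ) (h : ∀ κ : Z → Fin K, #(univ.filter fun i => Function.update κ z i ∈ B) ≤ q) :
    #B * K ≤ q * K ^ Fintype.card Z := by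
  classical
  have e1 : #B * K = #((univ ×ˢ univ : Finset ((Z → Fin K) × Fin K)).filter
      fun x => x.1 ∈ B) := by
    have : (univ ×ˢ univ : Finset ((Z → Fin K) × Fin K)).filter (fun x => x.1 ∈ B) =
        B ×ˢ (univ : Finset (Fin K)) := by
      ext x
      simp
    rw [this, card_product, card_univ, Fintype.card_fin]
  have e2 : #((univ ×ˢ univ : Finset ((Z → Fin K) × Fin K)).filter fun x => x.1 ∈ B) =
      #((univ ×ˢ univ : Finset ((Z → Fin K) × Fin K)).filter
        fun x => Function.update x.1 z x.2 ∈ B) := by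
    refine Finset.card_nbij' (fun x => (Function.update x.1 z x.2, x.1 z))
      (fun x => (Function.update x.1 z x.2, x.1 z)) ?_ ?_ ?_ ?_
    · intro x hx
      simpa using hx
    · intro x hx
      simpa using hx
    · intro x _
      simp
    · intro x _
      simp
  rw [e1, e2, card_filter, sum_product]
  calc ∑ x : Z → Fin K, ∑ y : Fin K, (if Function.update (x, y).1 z (x, y).2 ∈ B then 1 else 0)
      ≤ ∑ _x : Z → Fin K, q := by
        refine sum_le_sum fun κ _ => ?_
        rw [← card_filter]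
        exact h κ
    _ = q * K ^ Fintype.card Z := by
        rw [sum_const, card_univ, Fintype.card_fun, Fintype.card_fin, smul_eq_mul, mul_comm]

open Finset in
/-- Two coordinates are bad for at most `ρ` pairs of values: few functions are bad. -/
theorem key2 {Z : Type} [Fintype Z] [DecidableEq Z] {K : ℕ} {z z' : Z} (hz : z ≠ z')
    (B : Finset (Z → Fin K)) (ρ : ℕ)
    (h : ∀ κ : Z → Fin K, #(univ.filter fun p : Fin K × Fin K =>
      Function.update (Function.update κ z p.1) z' p.2 ∈ B) ≤ ρ) :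
    #B * K ^ 2 ≤ ρ * K ^ Fintype.card Z := by
  classical
  have e1 : #B * K ^ 2 = #((univ ×ˢ univ : Finset ((Z → Fin K) × (Fin K × Fin K))).filter
      fun x => x.1 ∈ B) := by
    have : (univ ×ˢ univ : Finset ((Z → Fin K) × (Fin K × Fin K))).filter (fun x => x.1 ∈ B) =
        B ×ˢ (univ : Finset (Fin K × Fin K)) := by
      ext x
      simp
    rw [this, card_product, card_univ, Fintype.card_prod, Fintype.card_fin, sq]
  have e0 : ∀ (κ : Z → Fin K) (i j : Fin K),
      Function.update (Function.update (Function.update (Function.update κ z i) z' j) z (κ z)) z'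
        (κ z') = κ := by
    intro κ i j
    funext w
    by_cases h1 : w = z'
    · subst h1
      simp
    · by_cases h2 : w = z
      · subst h2
        simp [h1]
      · simp [h1, h2]
  have e2 : #((univ ×ˢ univ : Finset ((Z → Fin K) × (Fin K × Fin K))).filter
        fun x => x.1 ∈ B) =
      #((univ ×ˢ univ : Finset ((Z → Fin K) × (Fin K × Fin K))).filter
        fun x => Function.update (Function.update x.1 z x.2.1) z' x.2.2 ∈ B) := by
    refine Finset.card_nbij'
      (fun x => (Function.update (Function.update x.1 z x.2.1) z' x.2.2, (x.1 z, x.1 z')))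
      (fun x => (Function.update (Function.update x.1 z x.2.1) z' x.2.2, (x.1 z, x.1 z')))
      ?_ ?_ ?_ ?_
    · intro x hx
      rw [mem_coe, mem_filter] at hx ⊢
      refine ⟨by simp, ?_⟩
      simp only
      rw [e0]
      exact hx.2
    · intro x hx
      rw [mem_coe, mem_filter] at hx ⊢
      exact ⟨by simp, hx.2⟩
    · rintro ⟨κ, i, j⟩ _
      simp only [e0]
      simp [hz]
    · rintro ⟨κ, i, j⟩ _
      simp only [e0]
      simp [hz]
  rw [e1, e2, card_filter, sum_product]
  calc ∑ x : Z → Fin K, ∑ y : Fin K × Fin K,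
        (if Function.update (Function.update (x, y).1 z (x, y).2.1) z' (x, y).2.2 ∈ B then 1 else 0)
      ≤ ∑ _x : Z → Fin K, ρ := by
        refine sum_le_sum fun κ _ => ?_
        rw [← card_filter]
        exact h κ
    _ = ρ * K ^ Fintype.card Z := by
        rw [sum_const, card_univ, Fintype.card_fun, Fintype.card_fin, smul_eq_mul, mul_comm]

/-- `O z κ` : the values forbidden for `z` if the other values are given by `κ`; `Cf z z' k k'` : the
values `k` of `z` and `k'` of `z'` are in conflict. -/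
theorem choice {ι : Type} [DecidableEq ι] (Z : Finset ι) {K ω ρ : ℕ} (O : ι → (ι → ℕ) → Finset ℕ)
    (hO : ∀ z ∈ Z, ∀ κ κ' : ι → ℕ, (∀ z' ∈ Z, z' ≠ z → κ z' = κ' z') → O z κ = O z κ')
    (hω : ∀ z ∈ Z, ∀ κ : ι → ℕ, (∀ z' ∈ Z, κ z' < K) → (O z κ).card ≤ ω)
    (Cf : ι → ι → ℕ → ℕ → Prop)
    (hρ : ∀ z ∈ Z, ∀ z' ∈ Z, z ≠ z' → ∀ S : Finset (ℕ × ℕ),
      (∀ p ∈ S, p.1 < K ∧ p.2 < K ∧ Cf z z' p.1 p.2) → S.card ≤ ρ)
    (hK : Z.card * ω * K + Z.card ^ 2 * ρ < K ^ 2) :
    ∃ κ : ι → ℕ, (∀ z ∈ Z, κ z < K ∧ κ z ∉ O z κ) ∧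
      ∀ z ∈ Z, ∀ z' ∈ Z, z ≠ z' → ¬ Cf z z' (κ z) (κ z') := by
  classical
  have hK0 : 0 < K := by
    rcases Nat.eq_zero_or_pos K with h | h
    · subst h
      simp at hK
    · exact h
  let E : (Z → Fin K) → ι → ℕ := fun κ z => if h : z ∈ Z then (κ ⟨z, h⟩ : ℕ) else 0
  have hE : ∀ (κ : Z → Fin K) (z : Z), E κ z = (κ z : ℕ) := by
    intro κ z
    simp only [E, z.2, dif_pos]
  have hEK : ∀ (κ : Z → Fin K), ∀ z ∈ Z, E κ z < K := by
    intro κ z hz
    have := hE κ ⟨z, hz⟩
    simp only at this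
    rw [this]
    exact (κ ⟨z, hz⟩).2
  let B1 : Z → Finset (Z → Fin K) := fun z => Finset.univ.filter fun κ => (κ z : ℕ) ∈ O z (E κ)
  let B2 : Z × Z → Finset (Z → Fin K) := fun p =>
    Finset.univ.filter fun κ => Cf p.1 p.2 (κ p.1) (κ p.2)
  have hB1 : ∀ z : Z, (B1 z).card * K ≤ ω * K ^ Z.card := by
    intro z
    have h1 := key1 z (B1 z) ω ?_
    · rwa [Fintype.card_coe] at h1
    intro κ
    refine le_trans ?_ (hω z z.2 (E κ) (hEK κ))
    refine Finset.card_le_card_of_injOn (fun i : Fin K => (i : ℕ)) ?_ ?_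
    · intro i hi
      simp only [B1, Finset.coe_filter, Finset.mem_filter, Finset.mem_univ, true_and,
        Set.mem_ofPred_eq, Function.update_self] at hi
      have h2 : O z (E (Function.update κ z i)) = O z (E κ) := by
        refine hO z z.2 _ _ ?_
        intro z' hz' hne
        have h3 := hE (Function.update κ z i) ⟨z', hz'⟩
        have h4 := hE κ ⟨z', hz'⟩
        simp only at h3 h4
        rw [h3, h4, Function.update_of_ne]
        intro h5
        exact hne (by rw [← h5])
      rw [h2] at hi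
      exact hi
    · intro i _ j _ hij
      exact Fin.ext hij
  have hB2 : ∀ p : Z × Z, p.1 ≠ p.2 → (B2 p).card * K ^ 2 ≤ ρ * K ^ Z.card := by
    rintro ⟨z, z'⟩ hne
    have h1 := key2 hne (B2 (z, z')) ρ ?_
    · rwa [Fintype.card_coe] at h1
    intro κ
    set T := Finset.univ.filter fun p : Fin K × Fin K =>
      Function.update (Function.update κ z p.1) z' p.2 ∈ B2 (z, z') with hT
    have h2 : (T.image fun p : Fin K × Fin K => ((p.1 : ℕ), (p.2 : ℕ))).card = T.card := by
      refine Finset.card_image_of_injective _ ?_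
      rintro ⟨a, b⟩ ⟨c, d⟩ h
      simp only [Prod.mk.injEq] at h
      exact Prod.ext (Fin.ext h.1) (Fin.ext h.2)
    rw [← h2]
    refine hρ z z.2 z' z'.2 (fun h => hne (Subtype.ext h)) _ ?_
    intro p hp
    obtain ⟨⟨a, b⟩, hab, rfl⟩ := Finset.mem_image.1 hp
    rw [hT, Finset.mem_filter] at hab
    have h3 := hab.2
    simp only [B2, Finset.mem_filter, Finset.mem_univ, true_and, Function.update_self,
      Function.update_of_ne hne] at h3
    exact ⟨a.2, b.2, h3⟩
  have hex : ∃ κ : Z → Fin K, (∀ z, κ ∉ B1 z) ∧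
      ∀ p ∈ (Finset.univ : Finset Z).offDiag, κ ∉ B2 p := by
    by_contra hcon
    push Not at hcon
    have hsub : (Finset.univ : Finset (Z → Fin K)) ⊆ (Finset.univ : Finset Z).biUnion B1 ∪
        (Finset.univ : Finset Z).offDiag.biUnion B2 := by
      intro κ _
      by_cases h : ∃ z, κ ∈ B1 z
      · obtain ⟨z, hz⟩ := h
        exact Finset.mem_union_left _ (Finset.mem_biUnion.2 ⟨z, Finset.mem_univ _, hz⟩)
      · push Not at h
        obtain ⟨p, hp, hκ⟩ := hcon κ h
        exact Finset.mem_union_right _ (Finset.mem_biUnion.2 ⟨p, hp, hκ⟩)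
    have h2 : K ^ Z.card ≤ (∑ z : Z, (B1 z).card) +
        ∑ p ∈ (Finset.univ : Finset Z).offDiag, (B2 p).card := by
      have h3 := (Finset.card_le_card hsub).trans (Finset.card_union_le _ _)
      rw [Finset.card_univ, Fintype.card_fun, Fintype.card_fin, Fintype.card_coe] at h3
      exact h3.trans (Nat.add_le_add Finset.card_biUnion_le Finset.card_biUnion_le)
    have h3 : (∑ z : Z, (B1 z).card) * K ^ 2 ≤ Z.card * ω * K * K ^ Z.card := by
      calc (∑ z : Z, (B1 z).card) * K ^ 2 = ∑ z : Z, ((B1 z).card * K) * K := by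
            rw [Finset.sum_mul]
            exact Finset.sum_congr rfl fun z _ => by ring
        _ ≤ ∑ _z : Z, (ω * K ^ Z.card) * K :=
            Finset.sum_le_sum fun z _ => Nat.mul_le_mul_right _ (hB1 z)
        _ = Z.card * ω * K * K ^ Z.card := by
            rw [Finset.sum_const, Finset.card_univ, Fintype.card_coe, smul_eq_mul]
            ring
    have h4 : (∑ p ∈ (Finset.univ : Finset Z).offDiag, (B2 p).card) * K ^ 2 ≤
        Z.card ^ 2 * ρ * K ^ Z.card := by
      calc (∑ p ∈ (Finset.univ : Finset Z).offDiag, (B2 p).card) * K ^ 2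
          = ∑ p ∈ (Finset.univ : Finset Z).offDiag, (B2 p).card * K ^ 2 := Finset.sum_mul _ _ _
        _ ≤ ∑ _p ∈ (Finset.univ : Finset Z).offDiag, ρ * K ^ Z.card :=
            Finset.sum_le_sum fun p hp => hB2 p (Finset.mem_offDiag.1 hp).2.2
        _ = (Finset.univ : Finset Z).offDiag.card * (ρ * K ^ Z.card) := by
            rw [Finset.sum_const, smul_eq_mul]
        _ ≤ Z.card ^ 2 * (ρ * K ^ Z.card) := by
            refine Nat.mul_le_mul_right _ ?_
            rw [Finset.offDiag_card, Finset.card_univ, Fintype.card_coe, sq]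
            exact Nat.sub_le _ _
        _ = Z.card ^ 2 * ρ * K ^ Z.card := by ring
    have hpos : 0 < K ^ Z.card := pow_pos hK0 _
    have h5 : K ^ 2 * K ^ Z.card ≤ (Z.card * ω * K + Z.card ^ 2 * ρ) * K ^ Z.card := by
      calc K ^ 2 * K ^ Z.card = K ^ Z.card * K ^ 2 := mul_comm _ _
        _ ≤ ((∑ z : Z, (B1 z).card) +
            ∑ p ∈ (Finset.univ : Finset Z).offDiag, (B2 p).card) * K ^ 2 :=
            Nat.mul_le_mul_right _ h2
        _ = (∑ z : Z, (B1 z).card) * K ^ 2 +
            (∑ p ∈ (Finset.univ : Finset Z).offDiag, (B2 p).card) * K ^ 2 := Nat.add_mul _ _ _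
        _ ≤ Z.card * ω * K * K ^ Z.card + Z.card ^ 2 * ρ * K ^ Z.card := Nat.add_le_add h3 h4
        _ = (Z.card * ω * K + Z.card ^ 2 * ρ) * K ^ Z.card := (Nat.add_mul _ _ _).symm
    exact absurd (Nat.le_of_mul_le_mul_right h5 hpos) (not_le.2 hK)
  obtain ⟨κ, h1, h2⟩ := hex
  refine ⟨E κ, ?_, ?_⟩
  · intro z hz
    refine ⟨hEK κ z hz, ?_⟩
    have h3 := h1 ⟨z, hz⟩
    simp only [B1, Finset.mem_filter, Finset.mem_univ, true_and] at h3
    have h4 := hE κ ⟨z, hz⟩
    simp only at h4
    rwa [h4]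
  · intro z hz z' hz' hne
    have h3 := h2 (⟨z, hz⟩, ⟨z', hz'⟩) (Finset.mem_offDiag.2
      ⟨Finset.mem_univ _, Finset.mem_univ _, fun h => hne (by simpa using h)⟩)
    simp only [B2, Finset.mem_filter, Finset.mem_univ, true_and] at h3
    have h4 := hE κ ⟨z, hz⟩
    have h5 := hE κ ⟨z', hz'⟩
    simp only at h4 h5
    rwa [h4, h5]

end Pool.Agent.LibAA59
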