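import Pool.Agent.LibAL48.Sys
import Pool.Agent.LibAV75.Defs

/-!
Worlds at one level: tables, moves, acceptance predicates with certificates which are finite sets
of queries; simultaneous choice among alternatives.
-/

namespace Pool.Agent.LibAA59

open Pool.Agent.LibAL48

/-- Systems with a finer relation of agreement on finite sets of queries (think of the values behind
the answers), in which the values of the plain oracle can be asked. -/
structure SysA extends Sys where
  /-- `x` and `x'` agree on the queries of `Z` of level `n` -/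
  ag : ∀ n, Finset (List Bool) → X n → X n → Prop
  ag_an : ∀ {n Z x x'}, ag n Z x x' → ∀ t ∈ Z, lv t = n → an n x' t = an n x t
  ag_refl : ∀ {n} (Z) (x : X n), ag n Z x x
  ag_symm : ∀ {n Z} {x x' : X n}, ag n Z x x' → ag n Z x' x
  ag_trans : ∀ {n Z} {x x' x'' : X n}, ag n Z x x' → ag n Z x' x'' → ag n Z x x''
  ag_mono : ∀ {n Z Z'} {x x' : X n}, ag n Z' x x' → Z ⊆ Z' → ag n Z x x'
  ag_union : ∀ {n Z Z'} {x x' : X n}, ag n Z x x' → ag n Z' x x' → ag n (Z ∪ Z') x x'
  ag_move : ∀ n (x : X n) (Z : Finset (List Bool)) (f : List Bool → Bool),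
    (∀ s ∈ bad Z, s.length = n → f s = pl n x s) →
    ∃ x' : X n, (∀ s : List Bool, s.length = n → pl n x' s = f s) ∧ ag n Z x x'
  /-- the query for a value of the plain oracle -/
  ask : List Bool → List Bool
  lv_ask : ∀ s, lv (ask s) = s.length
  an_ask : ∀ (s : List Bool) (n : ℕ) (x : X n), s.length = n → an n x (ask s) = pl n x s

variable {S : SysA} {n : ℕ}

/-- The strings of length `n` in the plain oracle of the world `x`. -/
def Tab (x : S.X n) : Set (List Bool) := {s | s.length = n ∧ S.pl n x s = true}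

/-- The queries of `Z` of level `n` have the same answers (more precisely, values). -/
def Same (Z : Finset (List Bool)) (x x' : S.X n) : Prop := S.ag n Z x x'

/-- `x'` is reached from `x` by adding strings of `Reg` without changing the answers to `F`. -/
def Fut (x : S.X n) (F Reg : Finset (List Bool)) (x' : S.X n) : Prop :=
  Tab x ⊆ Tab x' ∧ Tab x' ⊆ Tab x ∪ (Reg : Set (List Bool)) ∧ Same F x x'

/-- Every acceptance depends on the answers to at most `q` queries. -/
def Cert (q : ℕ) (acc : S.X n → Prop) : Prop :=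
  ∀ x, acc x → ∃ C : Finset (List Bool), C.card ≤ q ∧ ∀ x', Same C x x' → acc x'

/-- `acc` stays false for all additions in `Reg` which do not change the answers to `F` and to
some further `M` queries. -/
def Dead (acc : S.X n → Prop) (x : S.X n) (F Reg : Finset (List Bool)) (M : ℕ) : Prop :=
  ∃ G : Finset (List Bool), G.card ≤ M ∧ ∀ x', Fut x (F ∪ G) Reg x' → ¬ acc x'

/-- The number of alternatives needed for `m` items with certificates of size `q`, if `σ` answers
are protected. -/
def KK (m q σ : ℕ) : ℕ := m ^ 2 * (σ + q) + m ^ 2 * q * (m * q + σ + q + 2) + 1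

/-- The size of the sets in `Dead`. -/
def MM (m q σ : ℕ) : ℕ := 2 * (KK m q σ * q) + σ

/-- Alternatives: `y 0, y 1, ...` are worlds above `x`, agreeing with `x` on `F` and on the
certificates `C` of the alternatives before; what they add is fixed by the answers to `F` and to the
certificates up to now, but not by the answers to `F` and to the certificates before. -/
structure Alt (x : S.X n) (F : Finset (List Bool)) (q K : ℕ) (y : ℕ → S.X n)
    (C : ℕ → Finset (List Bool)) : Prop where
  card : ∀ k < K, (C k).card ≤ q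
  sub : ∀ k < K, Tab x ⊆ Tab (y k)
  same : ∀ k < K, Same (F ∪ (Finset.range k).biUnion C) x (y k)
  old : ∀ k < K, ∀ s ∈ S.bad (F ∪ (Finset.range k).biUnion C), s ∈ Tab (y k) → s ∈ Tab x
  new : ∀ k < K, ∀ s ∈ Tab (y k), s ∉ Tab x → s ∈ S.bad (F ∪ (Finset.range (k + 1)).biUnion C)

/-- Simultaneous choice: among sufficiently many alternatives for each item one can choose one for
each item, such that all are realised in one world. -/
def Sim (S : SysA) : Prop :=
  ∀ (n : ℕ) (ι : Type) (Z : Finset ι) (x : S.X n) (F : Finset (List Bool)) (q K : ℕ)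
    (y : ι → ℕ → S.X n) (C : ι → ℕ → Finset (List Bool)), KK Z.card q F.card ≤ K →
    (∀ z ∈ Z, Alt x F q K (y z) (C z)) →
    ∃ (κ : ι → ℕ) (x' : S.X n), (∀ z ∈ Z, κ z < K) ∧ Same F x x' ∧
      (∀ s, s ∈ Tab x' ↔ s ∈ Tab x ∨ ∃ z ∈ Z, s ∈ Tab (y z (κ z))) ∧
      ∀ z ∈ Z, Same (C z (κ z)) (y z (κ z)) x'

theorem Same.an {Z : Finset (List Bool)} {x x' : S.X n} (h : Same Z x x') {t : List Bool}
    (ht : t ∈ Z) (hl : S.lv t = n) : S.an n x' t = S.an n x t := S.ag_an h t ht hl

theorem Same.refl (Z : Finset (List Bool)) (x : S.X n) : Same Z x x := S.ag_refl Z x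

theorem Same.symm {Z : Finset (List Bool)} {x x' : S.X n} (h : Same Z x x') : Same Z x' x :=
  S.ag_symm h

theorem Same.trans {Z : Finset (List Bool)} {x x' x'' : S.X n} (h : Same Z x x')
    (h' : Same Z x' x'') : Same Z x x'' := S.ag_trans h h'

theorem Same.mono {Z Z' : Finset (List Bool)} {x x' : S.X n} (h : Same Z' x x') (hZ : Z ⊆ Z') :
    Same Z x x' := S.ag_mono h hZ

theorem Same.union {Z Z' : Finset (List Bool)} {x x' : S.X n} (h : Same Z x x')
    (h' : Same Z' x x') : Same (Z ∪ Z') x x' := S.ag_union h h'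

theorem tab_len {x : S.X n} {s : List Bool} (h : s ∈ Tab x) : s.length = n := h.1

theorem Fut.refl (x : S.X n) (F Reg : Finset (List Bool)) : Fut x F Reg x :=
  ⟨subset_rfl, Set.subset_union_left, Same.refl _ _⟩

theorem Fut.mono {x x' : S.X n} {F F' Reg Reg' : Finset (List Bool)} (h : Fut x F' Reg' x')
    (hF : F ⊆ F') (hR : Reg' ⊆ Reg) : Fut x F Reg x' :=
  ⟨h.1, h.2.1.trans (Set.union_subset_union_right _ (Finset.coe_subset.2 hR)), h.2.2.mono hF⟩

theorem Fut.trans {x x' x'' : S.X n} {F F' Reg : Finset (List Bool)} (h : Fut x F Reg x')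
    (h' : Fut x' F' Reg x'') (hF : F ⊆ F') : Fut x F Reg x'' :=
  ⟨h.1.trans h'.1, fun _ hs => (h'.2.1 hs).elim (fun h1 => h.2.1 h1) Or.inr,
    h.2.2.trans (h'.2.2.mono hF)⟩

/-- The table can be changed off the fixed strings without changing the answers. -/
theorem exists_tab (x : S.X n) (Z : Finset (List Bool)) (T : Set (List Bool))
    (hT : ∀ s ∈ T, s.length = n) (h : ∀ s ∈ S.bad Z, s ∈ T ↔ s ∈ Tab x) :
    ∃ x', Tab x' = T ∧ Same Z x x' := by
  classical
  obtain ⟨x', h1, h2⟩ := S.ag_move n x Z (fun s => decide (s ∈ T)) (by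
    intro s hs hl
    have h3 := h s hs
    rw [Bool.eq_iff_iff, decide_eq_true_iff, h3]
    exact ⟨fun h4 => h4.2, fun h4 => ⟨hl, h4⟩⟩)
  refine ⟨x', ?_, h2⟩
  ext s
  constructor
  · rintro ⟨hl, h3⟩
    rw [h1 s hl] at h3
    exact of_decide_eq_true h3
  · intro hs
    refine ⟨hT s hs, ?_⟩
    rw [h1 s (hT s hs)]
    exact decide_eq_true hs

/-- Strings which are not fixed can be added. -/
theorem exists_add (x : S.X n) (Z P : Finset (List Bool)) (hP : ∀ s ∈ P, s.length = n)
    (hd : Disjoint P (S.bad Z)) :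
    ∃ x', Tab x' = Tab x ∪ (P : Set (List Bool)) ∧ Same Z x x' := by
  refine exists_tab x Z _ ?_ ?_
  · rintro s (hs | hs)
    · exact hs.1
    · exact hP s (Finset.mem_coe.1 hs)
  · intro s hs
    constructor
    · rintro (h | h)
      · exact h
      · exact absurd hs (Finset.disjoint_left.1 hd (Finset.mem_coe.1 h))
    · exact Or.inl

/-- The table at the strings asked for. -/
theorem Same.tab {Z : Finset (List Bool)} {x x' : S.X n} (h : Same Z x x') {s : List Bool}
    (hs : S.ask s ∈ Z) : s ∈ Tab x' ↔ s ∈ Tab x := by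
  have key : s.length = n → (S.pl n x' s = S.pl n x s) := by
    intro hl
    have h1 := h.an hs ((S.lv_ask s).trans hl)
    rwa [S.an_ask s n x' hl, S.an_ask s n x hl] at h1
  constructor
  · rintro ⟨hl, h1⟩
    exact ⟨hl, by rw [← key hl]; exact h1⟩
  · rintro ⟨hl, h1⟩
    exact ⟨hl, by rw [key hl]; exact h1⟩

end Pool.Agent.LibAA59
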