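import Mathlib

/-!
Row GR: increasing sequences without conflicts.
-/

namespace Pool.Agent.LibAA59

/-- PLAN. Induction on `t`, generalizing `N`. `t = 0`: `N` is nonempty, take any element. Step: `i := min N`
(`Finset.min'`); `N' := (N \ Cf i).erase i` has more than `t * (β + 1)` elements; the induction
hypothesis gives `f : Fin (t + 1) → ℕ` for `N'`; take `Fin.cons i f` (`Fin.cases` for the proofs). -/
theorem greedy {β : ℕ} (Cf : ℕ → Finset ℕ) (hCf : ∀ i, (Cf i).card ≤ β) :
    ∀ (t : ℕ) (N : Finset ℕ), t * (β + 1) < N.card → ∃ f : Fin (t + 1) → ℕ,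
      (∀ i, f i ∈ N) ∧ (∀ i j, i < j → f i < f j) ∧ ∀ i j, i < j → f j ∉ Cf (f i) := by
  intro t
  induction t with
  | zero =>
    intro N hN
    obtain ⟨x, hx⟩ := Finset.card_pos.1 (by omega : 0 < N.card)
    refine ⟨fun _ => x, fun _ => hx, fun i j h => ?_, fun i j h => ?_⟩
    · exfalso
      have := i.2
      have := j.2
      have : (i : ℕ) < j := h
      omega
    · exfalso
      have := i.2
      have := j.2
      have : (i : ℕ) < j := h
      omega
  | succ t ih =>
    intro N hN
    have hne : N.Nonempty := Finset.card_pos.1 (by omega)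
    set i₀ := N.min' hne with hi₀
    have hi₀N : i₀ ∈ N := N.min'_mem hne
    have hcard : t * (β + 1) < ((N \ Cf i₀).erase i₀).card := by
      have h1 := Finset.le_card_sdiff (Cf i₀) N
      have h2 := Finset.pred_card_le_card_erase (s := N \ Cf i₀) (a := i₀)
      have h3 := hCf i₀
      have h4 : (t + 1) * (β + 1) = t * (β + 1) + β + 1 := by ring
      omega
    obtain ⟨f, hf1, hf2, hf3⟩ := ih _ hcard
    have hmem : ∀ i, f i ≠ i₀ ∧ f i ∈ N ∧ f i ∉ Cf i₀ := by
      intro i
      have := hf1 i
      rw [Finset.mem_erase, Finset.mem_sdiff] at this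
      exact this
    refine ⟨Fin.cons i₀ f, ?_, ?_, ?_⟩
    · intro i
      refine Fin.cases ?_ (fun i => ?_) i
      · exact hi₀N
      · exact (hmem i).2.1
    · intro i j
      refine Fin.cases ?_ (fun i => ?_) i
      · refine Fin.cases (fun h => absurd h (lt_irrefl _)) (fun j _ => ?_) j
        rw [Fin.cons_zero, Fin.cons_succ]
        exact lt_of_le_of_ne (N.min'_le _ (hmem j).2.1) (hmem j).1.symm
      · refine Fin.cases (fun h => absurd h (Fin.not_lt_zero _)) (fun j h => ?_) j
        rw [Fin.cons_succ, Fin.cons_succ]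
        exact hf2 i j (Fin.succ_lt_succ_iff.1 h)
    · intro i j
      refine Fin.cases ?_ (fun i => ?_) i
      · refine Fin.cases (fun h => absurd h (lt_irrefl _)) (fun j _ => ?_) j
        rw [Fin.cons_zero, Fin.cons_succ]
        exact (hmem j).2.2
      · refine Fin.cases (fun h => absurd h (Fin.not_lt_zero _)) (fun j h => ?_) j
        rw [Fin.cons_succ, Fin.cons_succ]
        exact hf3 i j (Fin.succ_lt_succ_iff.1 h)

end Pool.Agent.LibAA59
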