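import Mathlib

/-!
Row SO: a linear system is solvable or there is an obstruction.
-/

namespace Pool.Agent.LibAA59

/-- PLAN. `W₀ := LinearMap.range f` for `f : M →ₗ[K] (I → K)` (here `M` is the submodule `D`). If
`t ∉ LinearMap.range (f.domRestrict D)` (or `D.map f`), there is a linear functional `φ` on `I → K`
vanishing on this subspace with `φ t ≠ 0` (`Submodule.exists_le_ker_of_notMem` /
`Submodule.exists_dual_map_eq_bot_of_notMem`); put `c i := φ (Pi.single i 1)`, so that
`φ a = ∑ i, c i * a i` (`LinearMap.pi_apply_eq_sum_univ`). -/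
theorem solve {K : Type} [Field K] {M : Type} [AddCommGroup M] [Module K M] (D : Submodule K M)
    {I : Type} [Fintype I] (f : M →ₗ[K] (I → K)) (t : I → K) :
    (∃ m ∈ D, f m = t) ∨ ∃ c : I → K, (∀ m ∈ D, ∑ i, c i * f m i = 0) ∧ ∑ i, c i * t i ≠ 0 := by
  classical
  by_cases ht : t ∈ D.map f
  · left
    obtain ⟨m, hm, hmt⟩ := Submodule.mem_map.1 ht
    exact ⟨m, hm, hmt⟩
  · right
    obtain ⟨φ, hφ, hφD⟩ := Submodule.exists_le_ker_of_notMem ht
    have h : ∀ a : I → K, φ a = ∑ i, φ (fun j => if i = j then 1 else 0) * a i := by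
      intro a
      rw [LinearMap.pi_apply_eq_sum_univ φ a]
      refine Finset.sum_congr rfl fun i _ => ?_
      rw [smul_eq_mul, mul_comm]
    refine ⟨fun i => φ (fun j => if i = j then 1 else 0), fun m hm => ?_, ?_⟩
    · have h1 := h (f m)
      rw [← h1]
      exact LinearMap.mem_ker.1 (hφD (Submodule.mem_map_of_mem hm))
    · have h1 := h t
      rw [← h1]
      exact hφ

end Pool.Agent.LibAA59
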