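import Pool.Agent.LibAA59.SK
import Pool.Agent.LibAA59.SO
import Pool.Agent.LibAA59.GR
import Pool.Agent.LibAL48.Poly

/-!
The obstruction lemma over one field.
-/

namespace Pool.Agent.LibAA59

open MvPolynomial Pool.Agent.LibAL48

variable {K : Type} [Field K] {n : ℕ}

open Classical in
/-- There is a polynomial of degree at most 2 in each variable which is the indicator of `P` on the
cube, agrees with `D` on `A` and vanishes on `T`. -/
def Sol (P : Set (Fin n → Bool)) (D : MvPolynomial (Fin n) K) (A T : Set (Fin n → K)) : Prop :=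
  ∃ E : MvPolynomial (Fin n) K, (∀ i, E.degreeOf i ≤ 2) ∧
    (∀ w, eval (cub K w) E = if w ∈ P then 1 else 0) ∧ (∀ y ∈ A, eval y E = eval y D) ∧
    ∀ y ∈ T, eval y E = 0

/-- Polynomials of degree at most 2 in each variable vanishing on the cube. -/
def D0 (K : Type) [Field K] (n : ℕ) : Submodule K (MvPolynomial (Fin n) K) where
  carrier := {H | (∀ i, H.degreeOf i ≤ 2) ∧ ∀ w, eval (cub K w) H = 0}
  add_mem' := by
    rintro a b ⟨ha, ha'⟩ ⟨hb, hb'⟩
    exact ⟨fun i => (degreeOf_add_le i _ _).trans (max_le (ha i) (hb i)), fun w => by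
      rw [map_add, ha' w, hb' w, add_zero]⟩
  zero_mem' := ⟨fun i => by simp, fun w => by simp⟩
  smul_mem' := by
    rintro c a ⟨ha, ha'⟩
    refine ⟨fun i => ?_, fun w => ?_⟩
    · rw [smul_eq_C_mul]
      refine (degreeOf_mul_le i _ _).trans ?_
      rw [degreeOf_C, zero_add]
      exact ha i
    · rw [smul_eval, ha' w, mul_zero]

/-- The values at finitely many points, as a linear map. -/
noncomputable def vals {I : Type} (p : I → Fin n → K) : MvPolynomial (Fin n) K →ₗ[K] (I → K) where
  toFun H i := eval (p i) H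
  map_add' a b := by
    funext i
    simp
  map_smul' c a := by
    funext i
    simp [smul_eval]

open Classical in
/-- If the system is not solvable there is an obstruction. -/
theorem obstr {D : MvPolynomial (Fin n) K} {P : Set (Fin n → Bool)} {A T : Finset (Fin n → K)}
    (hdeg : ∀ i, D.degreeOf i ≤ 2) (hcube : ∀ w, eval (cub K w) D = if w ∈ P then 1 else 0)
    (h : ¬ Sol P D (A : Set (Fin n → K)) (T : Set (Fin n → K))) :
    ∃ (c : A → K) (u : T → K), ∑ y : T, u y * eval (y : Fin n → K) D ≠ 0 ∧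
      ∀ (D' : MvPolynomial (Fin n) K) (P' : Set (Fin n → Bool)), (∀ i, D'.degreeOf i ≤ 2) →
        (∀ w, eval (cub K w) D' = if w ∈ P' then 1 else 0) →
        (∀ w ∈ P', w ∉ Bad ((A : Set (Fin n → K)) ∪ (T : Set (Fin n → K)))) →
        ∑ y : A, c y * eval (y : Fin n → K) D' + ∑ y : T, u y * eval (y : Fin n → K) D' = 0 := by
  set p : A ⊕ T → Fin n → K := Sum.elim (fun y => (y : Fin n → K)) (fun y => (y : Fin n → K))
    with hp
  rcases solve (D0 K n) (vals p) (Sum.elim (fun _ => 0) fun y => - eval (y : Fin n → K) D) with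
    ⟨H, hH, hHt⟩ | ⟨c, hc1, hc2⟩
  · exfalso
    apply h
    refine ⟨D + H, fun i => (degreeOf_add_le i _ _).trans (max_le (hdeg i) (hH.1 i)), fun w => ?_,
      fun y hy => ?_, fun y hy => ?_⟩
    · rw [map_add, hH.2 w, add_zero, hcube w]
    · have h1 := congrFun hHt (Sum.inl ⟨y, hy⟩)
      have h2 : eval y H = 0 := h1
      rw [map_add, h2, add_zero]
    · have h1 := congrFun hHt (Sum.inr ⟨y, hy⟩)
      have h2 : eval y H = - eval y D := h1
      rw [map_add, h2, add_neg_cancel]
  · refine ⟨fun y => c (Sum.inl y), fun y => c (Sum.inr y), ?_, ?_⟩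
    · rw [Fintype.sum_sum_type] at hc2
      intro h1
      apply hc2
      simp only [Sum.elim_inl, Sum.elim_inr, mul_zero, Finset.sum_const_zero, zero_add, mul_neg,
        Finset.sum_neg_distrib, h1, neg_zero]
    · intro D' P' hdeg' hcube' hbad
      obtain ⟨E, hE1, hE2, hE3⟩ := exists_change (f₀ := fun w => decide (w ∈ P'))
        (f := fun _ => false) (Y := (A : Set (Fin n → K)) ∪ (T : Set (Fin n → K))) (P := D') hdeg'
        (fun v => by simp [hcube' v]) (by
          intro v hv
          symm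
          rw [decide_eq_false_iff_not]
          exact fun h1 => hbad v h1 hv)
      have h1 := hc1 E ⟨hE1, fun w => by simpa using hE2 w⟩
      rw [Fintype.sum_sum_type] at h1
      rw [← h1]
      congr 1
      · refine Finset.sum_congr rfl fun y _ => ?_
        have h2 : vals p E (Sum.inl y) = eval (y : Fin n → K) E := rfl
        rw [h2, hE3 y (Or.inl y.2)]
      · refine Finset.sum_congr rfl fun y _ => ?_
        have h2 : vals p E (Sum.inr y) = eval (y : Fin n → K) E := rfl
        rw [h2, hE3 y (Or.inr y.2)]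

open Classical in
/-- The obstruction lemma over one field. -/
theorem obs_count {Kn β : ℕ} {D : ℕ → MvPolynomial (Fin n) K} {P : ℕ → Set (Fin n → Bool)}
    {A : ℕ → Finset (Fin n → K)} {T : Finset (Fin n → K)}
    (hdeg : ∀ k < Kn, ∀ i, (D k).degreeOf i ≤ 2)
    (hcube : ∀ k < Kn, ∀ w, eval (cub K w) (D k) = if w ∈ P k then 1 else 0)
    (hvan : ∀ k < Kn, ∀ k' < k, ∀ y ∈ A k', eval y (D k) = 0)
    (hdisj : ∀ k < Kn, ∀ k' < k, Disjoint (P k) (P k'))
    (hβ : ∀ k < Kn, (A k ∪ T).card ≤ β) (N : Finset ℕ)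
    (hN : ∀ k ∈ N, k < Kn ∧ ¬ Sol (P k) (D k) (A k : Set (Fin n → K)) (T : Set (Fin n → K))) :
    N.card ≤ T.card * (β + 1) := by
  by_contra hcon
  push Not at hcon
  -- the conflicts
  set Cf : ℕ → Finset ℕ := fun i => N.filter fun j => i ∈ N ∧
    ∃ w ∈ P j, w ∈ Bad ((A i : Set (Fin n → K)) ∪ (T : Set (Fin n → K))) with hCf
  have hCfc : ∀ i, (Cf i).card ≤ β := by
    intro i
    by_cases hi : i ∈ N
    · have h1 : ∀ j, ∃ w : Fin n → Bool, j ∈ Cf i → w ∈ P j ∧
          w ∈ Bad ((A i : Set (Fin n → K)) ∪ (T : Set (Fin n → K))) := by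
        intro j
        by_cases hj : j ∈ Cf i
        · obtain ⟨-, -, w, hw1, hw2⟩ := Finset.mem_filter.1 hj
          exact ⟨w, fun _ => ⟨hw1, hw2⟩⟩
        · exact ⟨fun _ => false, fun h => absurd h hj⟩
      choose g hg using h1
      have h2 := card_bad_le (A i ∪ T) ((Cf i).image g) (by
        intro w hw
        obtain ⟨j, hj, rfl⟩ := Finset.mem_image.1 hw
        rw [Finset.coe_union]
        exact (hg j hj).2)
      rw [Finset.card_image_of_injOn] at h2
      · exact h2.trans (hβ i (hN i hi).1)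
      · intro j hj j' hj' hjj
        by_contra hne
        have e1 := (hN j (Finset.mem_filter.1 hj).1).1
        have e2 := (hN j' (Finset.mem_filter.1 hj').1).1
        have e3 := (hg j hj).1
        have e4 := (hg j' hj').1
        have hjj' : g j = g j' := hjj
        rw [hjj'] at e3
        rcases lt_or_gt_of_ne hne with hlt | hlt
        · exact Set.disjoint_left.1 (hdisj j' e2 j hlt) e4 e3
        · exact Set.disjoint_left.1 (hdisj j e1 j' hlt) e3 e4
    · have h1 : Cf i = ∅ := by
        rw [hCf]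
        exact Finset.filter_eq_empty_iff.2 fun j _ h => hi h.1
      rw [h1, Finset.card_empty]
      exact Nat.zero_le _
  obtain ⟨f, hf1, hf2, hf3⟩ := greedy Cf hCfc T.card N hcon
  have h1 : ∀ i : Fin (T.card + 1), _ := fun i => obstr (hdeg _ (hN _ (hf1 i)).1)
    (hcube _ (hN _ (hf1 i)).1) (hN _ (hf1 i)).2
  choose c u h2 h3 using h1
  have h4 := skew (T := T) u (fun j y => eval (y : Fin n → K) (D (f j))) (by
    intro i j hij
    have hj := (hN _ (hf1 j)).1
    have h5 := h3 i (D (f j)) (P (f j)) (hdeg _ hj) (hcube _ hj) (by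
      intro w hw hbad
      exact hf3 i j hij (Finset.mem_filter.2 ⟨hf1 j, hf1 i, w, hw, hbad⟩))
    have h6 : ∑ y : A (f i), c i y * eval (y : Fin n → K) (D (f j)) = 0 := by
      refine Finset.sum_eq_zero fun y _ => ?_
      rw [hvan _ hj _ (hf2 i j hij) y y.2, mul_zero]
    rw [h6, zero_add] at h5
    exact h5) h2
  rw [Fintype.card_coe] at h4
  omega

end Pool.Agent.LibAA59
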