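import Pool.Agent.LibAA59.Defs
import Pool.Agent.LibAL48.Ext

/-!
The system of the polynomial extensions, with agreement of values.
-/

namespace Pool.Agent.LibAA59

open MvPolynomial Pool.Agent.LibAL48

variable (𝕂 : Fields)

/-- Agreement: the same values of the plain oracle and of the polynomials where they are asked for. -/
def Ag (n : ℕ) (Z : Finset (List Bool)) (x x' : XW 𝕂 n) : Prop :=
  (∀ u : List Bool, false :: u ∈ Z → u.length = n → x'.1.1 u = x.1.1 u) ∧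
    ∀ s, ∀ y ∈ pts 𝕂 Z s n, eval y (x'.1.2 s) = eval y (x.1.2 s)

theorem pts_mono {𝕂 : Fields} {Z Z' : Finset (List Bool)} (h : Z ⊆ Z') (s : List Bool) (n : ℕ) :
    pts 𝕂 Z s n ⊆ pts 𝕂 Z' s n := fun _ ⟨j, hj⟩ => ⟨j, h hj⟩

/-- The system. -/
noncomputable def polyA : SysA where
  toSys := sys 𝕂
  ag := Ag 𝕂
  ag_an := by
    rintro n Z x x' ⟨h1, h2⟩ t ht hl
    match t, ht, hl with
    | [], _, _ => rfl
    | false :: u, ht, hl =>
      have hl' : lev 𝕂 (false :: u) = n := hl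
      rw [lev_none (kind_false u), List.length_cons] at hl'
      exact h1 u ht (by omega)
    | true :: u, ht, hl =>
      refine decide_eq_decide.2 ?_
      constructor
      · rintro ⟨s, j, y, rfl, h⟩
        exact ⟨s, j, y, rfl, by rwa [← h2 s y ⟨j, ht⟩]⟩
      · rintro ⟨s, j, y, rfl, h⟩
        exact ⟨s, j, y, rfl, by rwa [h2 s y ⟨j, ht⟩]⟩
  ag_refl Z x := ⟨fun _ _ _ => rfl, fun _ _ _ => rfl⟩
  ag_symm := by
    rintro n Z x x' ⟨h1, h2⟩
    exact ⟨fun u hu hl => (h1 u hu hl).symm, fun s y hy => (h2 s y hy).symm⟩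
  ag_trans := by
    rintro n Z x x' x'' ⟨h1, h2⟩ ⟨h3, h4⟩
    exact ⟨fun u hu hl => (h3 u hu hl).trans (h1 u hu hl), fun s y hy => (h4 s y hy).trans (h2 s y hy)⟩
  ag_mono := by
    rintro n Z Z' x x' ⟨h1, h2⟩ hZ
    exact ⟨fun u hu hl => h1 u (hZ hu) hl, fun s y hy => h2 s y (pts_mono hZ s n hy)⟩
  ag_union := by
    rintro n Z Z' x x' ⟨h1, h2⟩ ⟨h3, h4⟩
    refine ⟨fun u hu hl => ?_, fun s y hy => ?_⟩
    · rcases Finset.mem_union.1 hu with hu | hu
      · exact h1 u hu hl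
      · exact h3 u hu hl
    · obtain ⟨j, hj⟩ := hy
      rcases Finset.mem_union.1 hj with hj | hj
      · exact h2 s y ⟨j, hj⟩
      · exact h4 s y ⟨j, hj⟩
  ag_move := by
    intro n x Z f hf
    have h1 : ∀ s, ∃ P' : MvPolynomial (Fin n) (𝕂.K s), (∀ i, P'.degreeOf i ≤ 2) ∧
        (∀ v, eval (cub (𝕂.K s) v) P' = if f (List.ofFn v) then 1 else 0) ∧
        ∀ y ∈ pts 𝕂 Z s n, eval y P' = eval y (x.1.2 s) := fun s =>
      exists_change (f₀ := fun v => x.1.1 (List.ofFn v)) (x.2 s).1 (x.2 s).2 fun v hv =>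
        hf _ (mem_bad_of_some hv) (by rw [List.length_ofFn])
    choose P' h2 h3 h4 using h1
    refine ⟨⟨(f, P'), fun s => ⟨h2 s, h3 s⟩⟩, fun _ _ => rfl, fun u hu hl => ?_, h4⟩
    exact hf u (mem_bad_of_none hu (kind_false u)) hl
  ask s := false :: s
  lv_ask s := by
    show lev 𝕂 (false :: s) = s.length
    rw [lev_none (kind_false s), List.length_cons, Nat.add_sub_cancel]
  an_ask s n x _ := rfl

theorem polyA_toSys : (polyA 𝕂).toSys = sys 𝕂 := rfl

end Pool.Agent.LibAA59
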