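import Mathlib

/-!
Row SK: skew systems of vectors.
-/

namespace Pool.Agent.LibAA59

/-- PLAN. The vectors `u i` are linearly independent in `T → K` (`Fintype.linearIndependent_iff`): let
`∑ i, g i • u i = 0` and suppose some `g i ≠ 0`; take the largest such `j`
(`Finset.exists_max_image` or `Finset.max'` of the filter). Multiply the coordinate `t` by `v j t` and sum
over `t`: `0 = ∑ i, g i * ∑ t, u i t * v j t`; the terms `i < j` vanish by `h0`, the terms `i > j` have
`g i = 0`, the term `i = j` is not zero. Then `LinearIndependent.fintype_card_le_finrank` and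
`Module.finrank_fintype_fun_eq_card`. -/
theorem skew {K : Type} [Field K] {T : Type} [Fintype T] {r : ℕ} (u v : Fin r → T → K)
    (h0 : ∀ i j, i < j → ∑ t, u i t * v j t = 0) (h1 : ∀ i, ∑ t, u i t * v i t ≠ 0) :
    r ≤ Fintype.card T := by
  classical
  have hli : LinearIndependent K u := by
    rw [Fintype.linearIndependent_iff]
    intro g hg
    by_contra hcon
    push Not at hcon
    obtain ⟨i₀, hi₀⟩ := hcon
    obtain ⟨j, hj, hmax⟩ := Finset.exists_max_image
      (Finset.univ.filter fun i => g i ≠ 0) (fun i => i)
      ⟨i₀, Finset.mem_filter.2 ⟨Finset.mem_univ _, hi₀⟩⟩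
    rw [Finset.mem_filter] at hj
    have h2 : ∑ i, g i * ∑ t, u i t * v j t = 0 := by
      have h3 : ∑ i, g i * ∑ t, u i t * v j t = ∑ t, (∑ i, g i • u i) t * v j t := by
        simp only [Finset.mul_sum, Finset.sum_apply, Pi.smul_apply, smul_eq_mul, Finset.sum_mul]
        rw [Finset.sum_comm]
        refine Finset.sum_congr rfl fun t _ => Finset.sum_congr rfl fun i _ => ?_
        ring
      rw [h3, hg]
      simp
    rw [Finset.sum_eq_single j] at h2
    · exact mul_ne_zero hj.2 (h1 j) h2
    · intro i _ hij
      rcases lt_or_gt_of_ne hij with h | h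
      · rw [h0 i j h, mul_zero]
      · have : g i = 0 := by
          by_contra hgi
          have := hmax i (Finset.mem_filter.2 ⟨Finset.mem_univ _, hgi⟩)
          exact absurd h (not_lt.2 this)
        rw [this, zero_mul]
    · intro h
      exact absurd (Finset.mem_univ _) h
  have h2 := hli.fintype_card_le_finrank
  rwa [Fintype.card_fin, Module.finrank_fintype_fun_eq_card] at h2

end Pool.Agent.LibAA59
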