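import Pool.Agent.LibAA59.PolyA
import Pool.Agent.LibAA59.Obs1
import Pool.Agent.LibAA59.CH

/-!
Simultaneous choice for the polynomial extensions.
-/

namespace Pool.Agent.LibAA59

open MvPolynomial Pool.Agent.LibAL48

variable {𝕂 : Fields}

open Classical in
theorem exists_ptf (𝕂 : Fields) (Z : Finset (List Bool)) (s : List Bool) (n : ℕ) :
    ∃ Y : Finset (Fin n → 𝕂.K s), (Y : Set (Fin n → 𝕂.K s)) = pts 𝕂 Z s n ∧
      Y.card ≤ (Z.filter fun t => kind 𝕂 t = some (s, n)).card := by
  have hkf : ∀ t ∈ Z.filter fun t => kind 𝕂 t = some (s, n), IsQ 𝕂 (s, n) t := fun t ht =>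
    kind_some.1 (Finset.mem_filter.1 ht).2
  refine ⟨(Z.filter fun t => kind 𝕂 t = some (s, n)).attach.image fun t => qpt (hkf t.1 t.2),
    ?_, ?_⟩
  · ext y
    rw [Finset.mem_coe, Finset.mem_image]
    constructor
    · rintro ⟨⟨t, ht⟩, -, rfl⟩
      obtain ⟨j, y', hy'⟩ := hkf t ht
      refine ⟨j, ?_⟩
      have h1 := (Finset.mem_filter.1 ht).1
      subst hy'
      have h2 : qpt (hkf _ ht) = y' := qpt_eq (o := (s, n)) (hkf _ ht)
      show true :: qry 𝕂 s j (qpt (hkf _ ht)) ∈ Z
      rw [h2]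
      exact h1
    · rintro ⟨j, hj⟩
      have hk : kind 𝕂 (true :: qry 𝕂 s j y) = some (s, n) := kind_some.2 ⟨j, y, rfl⟩
      have hmem : true :: qry 𝕂 s j y ∈ Z.filter fun t => kind 𝕂 t = some (s, n) :=
        Finset.mem_filter.2 ⟨hj, hk⟩
      exact ⟨⟨_, hmem⟩, Finset.mem_attach _ _, qpt_eq (o := (s, n)) (hkf _ hmem)⟩
  · refine Finset.card_image_le.trans (le_of_eq ?_)
    rw [Finset.card_attach]

/-- The points asked for, as a finite set. -/
noncomputable def ptf (𝕂 : Fields) (Z : Finset (List Bool)) (s : List Bool) (n : ℕ) :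
    Finset (Fin n → 𝕂.K s) := (exists_ptf 𝕂 Z s n).choose

theorem coe_ptf (Z : Finset (List Bool)) (s : List Bool) (n : ℕ) :
    (ptf 𝕂 Z s n : Set (Fin n → 𝕂.K s)) = pts 𝕂 Z s n := (exists_ptf 𝕂 Z s n).choose_spec.1

open Classical in
theorem card_ptf (Z : Finset (List Bool)) (s : List Bool) (n : ℕ) :
    (ptf 𝕂 Z s n).card ≤ (Z.filter fun t => kind 𝕂 t = some (s, n)).card :=
  (exists_ptf 𝕂 Z s n).choose_spec.2

theorem card_ptf' (Z : Finset (List Bool)) (s : List Bool) (n : ℕ) :
    (ptf 𝕂 Z s n).card ≤ Z.card := by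
  classical
  exact (card_ptf Z s n).trans (Finset.card_filter_le _ _)

variable {n : ℕ}

/-- What is added by a world, as a set of points of the cube. -/
def Add (x y : (polyA 𝕂).X n) : Set (Fin n → Bool) :=
  {w | List.ofFn w ∈ Tab y ∧ List.ofFn w ∉ Tab x}

/-- The difference of the polynomials. -/
noncomputable def dif (x y : (polyA 𝕂).X n) (s : List Bool) : MvPolynomial (Fin n) (𝕂.K s) :=
  y.1.2 s - x.1.2 s

theorem mem_tab {x : (polyA 𝕂).X n} {w : Fin n → Bool} :
    List.ofFn w ∈ Tab x ↔ x.1.1 (List.ofFn w) = true := by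
  constructor
  · exact fun h => h.2
  · exact fun h => ⟨List.length_ofFn, h⟩

theorem dif_deg (x y : (polyA 𝕂).X n) (s : List Bool) (i : Fin n) : (dif x y s).degreeOf i ≤ 2 :=
  (degreeOf_sub_le i _ _).trans (max_le ((y.2 s).1 i) ((x.2 s).1 i))

open Classical in
theorem dif_cube {x y : (polyA 𝕂).X n} (h : Tab x ⊆ Tab y) (s : List Bool) (w : Fin n → Bool) :
    eval (cub (𝕂.K s) w) (dif x y s) = if w ∈ Add x y then 1 else 0 := by
  unfold dif
  rw [map_sub, (y.2 s).2 w, (x.2 s).2 w]
  have h1 : w ∈ Add x y ↔ (y.1.1 (List.ofFn w) = true ∧ ¬ x.1.1 (List.ofFn w) = true) := by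
    unfold Add
    rw [Set.mem_ofPred_eq, mem_tab, mem_tab]
  have h2 : x.1.1 (List.ofFn w) = true → y.1.1 (List.ofFn w) = true := fun h3 =>
    mem_tab.1 (h (mem_tab.2 h3))
  by_cases h3 : x.1.1 (List.ofFn w) = true
  · have h4 := h2 h3
    rw [if_pos h4, if_pos h3, sub_self, if_neg (fun h5 => (h1.1 h5).2 h3)]
  · by_cases h4 : y.1.1 (List.ofFn w) = true
    · rw [if_pos h4, if_neg h3, sub_zero, if_pos (h1.2 ⟨h4, h3⟩)]
    · rw [if_neg h4, if_neg h3, sub_zero, if_neg (fun h5 => h4 (h1.1 h5).1)]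

open Classical in
/-- The alternatives of one item which are obstructed by the queries of `T`. -/
noncomputable def Obs (x : (polyA 𝕂).X n) (F : Finset (List Bool)) (K : ℕ)
    (y : ℕ → (polyA 𝕂).X n) (C : ℕ → Finset (List Bool)) (T : Finset (List Bool)) : Finset ℕ :=
  (Finset.range K).filter fun k =>
    (∃ s, ¬ Sol (Add x (y k)) (dif x (y k) s) (pts 𝕂 (F ∪ C k) s n) (pts 𝕂 T s n)) ∨
      ∃ u : List Bool, false :: u ∈ T ∧ u ∈ Tab (y k) ∧ u ∉ Tab x

theorem add_disj {x : (polyA 𝕂).X n} {F : Finset (List Bool)} {q K : ℕ}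
    {y : ℕ → (polyA 𝕂).X n} {C : ℕ → Finset (List Bool)} (h : Alt x F q K y C) {k k' : ℕ}
    (hk : k < K) (hk' : k' < k) {u : List Bool} (h1 : u ∈ Tab (y k)) (h2 : u ∉ Tab x)
    (h3 : u ∈ Tab (y k')) : False := by
  refine h2 (h.old k hk u ?_ h1)
  refine (polyA 𝕂).bad_mono _ _ ?_ (h.new k' (by omega) u h3 h2)
  refine Finset.union_subset_union_right ?_
  exact Finset.biUnion_subset_biUnion_of_subset_left _ (Finset.range_subset_range.2 hk')

open Classical in
theorem card_Obs {x : (polyA 𝕂).X n} {F : Finset (List Bool)} {q K : ℕ}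
    {y : ℕ → (polyA 𝕂).X n} {C : ℕ → Finset (List Bool)} (h : Alt x F q K y C)
    (T : Finset (List Bool)) : (Obs x F K y C T).card ≤ T.card * (T.card + F.card + q + 1) := by
  set β := T.card + F.card + q with hβ
  have hmem : ∀ k ∈ Obs x F K y C T, k < K := fun k hk =>
    Finset.mem_range.1 (Finset.mem_filter.1 hk).1
  -- one field
  have hone : ∀ s, ((Obs x F K y C T).filter fun k =>
      ¬ Sol (Add x (y k)) (dif x (y k) s) (pts 𝕂 (F ∪ C k) s n) (pts 𝕂 T s n)).card ≤
        (ptf 𝕂 T s n).card * (β + 1) := by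
    intro s
    refine obs_count (Kn := K) (D := fun k => dif x (y k) s) (P := fun k => Add x (y k))
      (A := fun k => ptf 𝕂 (F ∪ C k) s n) (T := ptf 𝕂 T s n)
      (fun k _ i => dif_deg x (y k) s i) (fun k hk w => dif_cube (h.sub k hk) s w) ?_ ?_ ?_ _ ?_
    · intro k hk k' hk' p hp
      have hp' : p ∈ pts 𝕂 (F ∪ C k') s n := by
        rw [← coe_ptf]
        exact hp
      have h1 := (h.same k hk).2 s p (pts_mono ?_ s n hp')
      · show eval p (dif x (y k) s) = 0
        unfold dif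
        rw [map_sub, h1, sub_self]
      · refine Finset.union_subset_union_right ?_
        exact Finset.subset_biUnion_of_mem C (Finset.mem_range.2 hk')
    · intro k hk k' hk'
      rw [Set.disjoint_left]
      rintro w ⟨h1, h2⟩ ⟨h3, -⟩
      exact add_disj h hk hk' h1 h2 h3
    · intro k hk
      refine (Finset.card_union_le _ _).trans ?_
      have e1 := card_ptf' (𝕂 := 𝕂) (F ∪ C k) s n
      have e2 := card_ptf' (𝕂 := 𝕂) T s n
      have e3 := Finset.card_union_le F (C k)
      have e4 := h.card k hk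
      omega
    · intro k hk
      rw [Finset.mem_filter] at hk
      rw [coe_ptf, coe_ptf]
      exact ⟨hmem k hk.1, hk.2⟩
  -- the plain queries
  have hplain : ((Obs x F K y C T).filter fun k =>
      ∃ u : List Bool, false :: u ∈ T ∧ u ∈ Tab (y k) ∧ u ∉ Tab x).card ≤
        (T.filter fun t => kind 𝕂 t = none).card := by
    have h1 : ∀ k, ∃ u : List Bool, k ∈ (Obs x F K y C T).filter (fun k =>
        ∃ u : List Bool, false :: u ∈ T ∧ u ∈ Tab (y k) ∧ u ∉ Tab x) →
        (false :: u ∈ T ∧ u ∈ Tab (y k) ∧ u ∉ Tab x) := by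
      intro k
      by_cases hk : ∃ u : List Bool, false :: u ∈ T ∧ u ∈ Tab (y k) ∧ u ∉ Tab x
      · obtain ⟨u, hu⟩ := hk
        exact ⟨u, fun _ => hu⟩
      · exact ⟨[], fun h2 => absurd (Finset.mem_filter.1 h2).2 hk⟩
    choose g hg using h1
    refine Finset.card_le_card_of_injOn (fun k => false :: g k) ?_ ?_
    · intro k hk
      exact Finset.mem_coe.2 (Finset.mem_filter.2 ⟨(hg k hk).1, kind_false _⟩)
    · intro k hk k' hk' hkk
      by_contra hne
      have e1 := hg k hk
      have e2 := hg k' hk'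
      have e3 : g k = g k' := List.tail_eq_of_cons_eq hkk
      have l1 := hmem k (Finset.mem_filter.1 hk).1
      have l2 := hmem k' (Finset.mem_filter.1 hk').1
      rw [e3] at e1
      rcases lt_or_gt_of_ne hne with hlt | hlt
      · exact add_disj h l2 hlt e2.2.1 e2.2.2 e1.2.1
      · exact add_disj h l1 hlt e1.2.1 e1.2.2 e2.2.1
  -- all together
  let g : Option (List Bool × ℕ) → Finset ℕ := fun o => match o with
    | none => (Obs x F K y C T).filter fun k =>
        ∃ u : List Bool, false :: u ∈ T ∧ u ∈ Tab (y k) ∧ u ∉ Tab x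
    | some o => if o.2 = n then (Obs x F K y C T).filter fun k =>
        ¬ Sol (Add x (y k)) (dif x (y k) o.1) (pts 𝕂 (F ∪ C k) o.1 n) (pts 𝕂 T o.1 n) else ∅
  have hg : ∀ o, (g o).card ≤ (T.filter fun t => kind 𝕂 t = o).card * (β + 1) := by
    intro o
    cases o with
    | none => exact hplain.trans (Nat.le_mul_of_pos_right _ (Nat.succ_pos _))
    | some o =>
      obtain ⟨s, m⟩ := o
      show (if m = n then _ else ∅ : Finset ℕ).card ≤ _
      split_ifs with hm
      · subst hm
        exact (hone s).trans (Nat.mul_le_mul_right _ (card_ptf T s m))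
      · simp
  have hsub : Obs x F K y C T ⊆ (T.image (kind 𝕂)).biUnion g := by
    intro k hk
    rw [Finset.mem_biUnion]
    rcases (Finset.mem_filter.1 hk).2 with ⟨s, hs⟩ | ⟨u, hu⟩
    · have hne : ∃ t ∈ T, kind 𝕂 t = some (s, n) := by
        by_contra hcon
        push Not at hcon
        apply hs
        rw [pts_eq_empty hcon]
        exact ⟨dif x (y k) s, fun i => dif_deg x (y k) s i,
          fun w => dif_cube (h.sub k (hmem k hk)) s w, fun _ _ => rfl,
          fun p hp => absurd hp (Set.notMem_empty p)⟩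
      obtain ⟨t, ht, hkt⟩ := hne
      refine ⟨some (s, n), Finset.mem_image.2 ⟨t, ht, hkt⟩, ?_⟩
      show k ∈ (if n = n then _ else ∅ : Finset ℕ)
      rw [if_pos rfl]
      exact Finset.mem_filter.2 ⟨hk, hs⟩
    · exact ⟨none, Finset.mem_image.2 ⟨_, hu.1, kind_false u⟩,
        Finset.mem_filter.2 ⟨hk, u, hu⟩⟩
  calc (Obs x F K y C T).card ≤ ((T.image (kind 𝕂)).biUnion g).card := Finset.card_le_card hsub
    _ ≤ ∑ o ∈ T.image (kind 𝕂), (g o).card := Finset.card_biUnion_le
    _ ≤ ∑ o ∈ T.image (kind 𝕂), (T.filter fun t => kind 𝕂 t = o).card * (β + 1) :=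
        Finset.sum_le_sum fun o _ => hg o
    _ = T.card * (β + 1) := by
        rw [← Finset.sum_mul, ← Finset.card_eq_sum_card_image]

theorem KK_num {m q σ K : ℕ} (h : KK m q σ ≤ K) :
    m * (m * q * (m * q + σ + q + 1)) * K + m ^ 2 * (σ + K * q) < K ^ 2 := by
  unfold KK at h
  have h1 : 1 ≤ K := by omega
  have h2 : (m ^ 2 * (σ + q) + m ^ 2 * q * (m * q + σ + q + 2) + 1) * K ≤ K * K :=
    Nat.mul_le_mul_right _ h
  have h3 : m ^ 2 * σ ≤ m ^ 2 * σ * K := Nat.le_mul_of_pos_right _ h1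
  calc m * (m * q * (m * q + σ + q + 1)) * K + m ^ 2 * (σ + K * q)
      = m ^ 2 * q * (m * q + σ + q + 1) * K + (m ^ 2 * σ + m ^ 2 * q * K) := by ring
    _ ≤ m ^ 2 * q * (m * q + σ + q + 1) * K + (m ^ 2 * σ * K + m ^ 2 * q * K) := by omega
    _ < m ^ 2 * q * (m * q + σ + q + 1) * K + (m ^ 2 * σ * K + m ^ 2 * q * K) +
        (m ^ 2 * q + 1) * K := by
        have : 0 < (m ^ 2 * q + 1) * K := by positivity
        omega
    _ = (m ^ 2 * (σ + q) + m ^ 2 * q * (m * q + σ + q + 2) + 1) * K := by ring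
    _ ≤ K * K := h2
    _ = K ^ 2 := (sq K).symm

open Classical in
/-- Simultaneous choice holds for the polynomial extensions. -/
theorem sim_polyA (𝕂 : Fields) : Sim (polyA 𝕂) := by
  intro n ι Z x F q K y C hK hAlt
  -- the choice
  set Tz : ι → (ι → ℕ) → Finset (List Bool) := fun z κ => (Z.erase z).biUnion fun z' =>
    C z' (κ z') with hTz
  have hTc : ∀ z ∈ Z, ∀ κ : ι → ℕ, (∀ z' ∈ Z, κ z' < K) → (Tz z κ).card ≤ Z.card * q := by
    intro z hz κ hκ
    refine (Finset.card_biUnion_le_card_mul _ _ q fun z' hz' =>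
      (hAlt z' (Finset.mem_of_mem_erase hz')).card _ (hκ z' (Finset.mem_of_mem_erase hz'))).trans ?_
    exact Nat.mul_le_mul_right _ (Finset.card_le_card (Finset.erase_subset _ _))
  obtain ⟨κ, hκ1, hκ2⟩ := choice Z (K := K) (ω := Z.card * q * (Z.card * q + F.card + q + 1))
    (ρ := F.card + K * q) (fun z κ => Obs x F K (y z) (C z) (Tz z κ)) (by
      intro z hz κ κ' hκκ
      have h1 : Tz z κ = Tz z κ' := by
        refine Finset.biUnion_congr rfl fun z' hz' => ?_
        rw [hκκ z' (Finset.mem_of_mem_erase hz') (Finset.ne_of_mem_erase hz')]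
      show Obs x F K (y z) (C z) (Tz z κ) = Obs x F K (y z) (C z) (Tz z κ')
      rw [h1]) (by
      intro z hz κ hκ
      refine (card_Obs (hAlt z hz) (Tz z κ)).trans ?_
      have h1 := hTc z hz κ hκ
      exact Nat.mul_le_mul h1 (by omega))
    (fun z z' k k' => ∃ w, w ∈ Add x (y z k) ∧ w ∈ Add x (y z' k')) (by
      intro z hz z' hz' hne S hS
      have h1 : ∀ p, ∃ w : Fin n → Bool, p ∈ S → w ∈ Add x (y z p.1) ∧ w ∈ Add x (y z' p.2) := by
        intro p
        by_cases hp : p ∈ S
        · obtain ⟨w, hw⟩ := (hS p hp).2.2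
          exact ⟨w, fun _ => hw⟩
        · exact ⟨fun _ => false, fun h => absurd h hp⟩
      choose g hg using h1
      have h2 : S.card ≤ ((polyA 𝕂).bad (F ∪ (Finset.range K).biUnion (C z))).card := by
        refine Finset.card_le_card_of_injOn (fun p => List.ofFn (g p)) ?_ ?_
        · intro p hp
          have h3 := hS p hp
          refine Finset.mem_coe.2 ((polyA 𝕂).bad_mono _ _ ?_
            ((hAlt z hz).new p.1 h3.1 _ (hg p hp).1.1 (hg p hp).1.2))
          refine Finset.union_subset_union_right ?_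
          exact Finset.biUnion_subset_biUnion_of_subset_left _ (Finset.range_subset_range.2 h3.1)
        · intro p hp p' hp' hpp
          have h3 := hS p hp
          have h4 := hS p' hp'
          have h5 := hg p hp
          have h6 := hg p' hp'
          have h7 : g p = g p' := List.ofFn_injective hpp
          rw [h7] at h5
          refine Prod.ext ?_ ?_
          · by_contra hne'
            rcases lt_or_gt_of_ne hne' with hlt | hlt
            · exact add_disj (hAlt z hz) h4.1 hlt h6.1.1 h6.1.2 h5.1.1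
            · exact add_disj (hAlt z hz) h3.1 hlt h5.1.1 h5.1.2 h6.1.1
          · by_contra hne'
            rcases lt_or_gt_of_ne hne' with hlt | hlt
            · exact add_disj (hAlt z' hz') h4.2.1 hlt h6.2.1 h6.2.2 h5.2.1
            · exact add_disj (hAlt z' hz') h3.2.1 hlt h5.2.1 h5.2.2 h6.2.1
      refine h2.trans (((polyA 𝕂).card_bad _).trans ((Finset.card_union_le _ _).trans ?_))
      refine Nat.add_le_add_left ?_ _
      refine (Finset.card_biUnion_le_card_mul _ _ q fun k hk =>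
        (hAlt z hz).card k (Finset.mem_range.1 hk)).trans ?_
      rw [Finset.card_range]) (KK_num hK)
  -- the polynomials
  have hE : ∀ z, ∃ E : ∀ s, MvPolynomial (Fin n) (𝕂.K s), z ∈ Z → ∀ s,
      (∀ i, (E s).degreeOf i ≤ 2) ∧
      (∀ w, eval (cub (𝕂.K s) w) (E s) = if w ∈ Add x (y z (κ z)) then 1 else 0) ∧
      (∀ p ∈ pts 𝕂 (F ∪ C z (κ z)) s n, eval p (E s) = eval p (dif x (y z (κ z)) s)) ∧
      ∀ p ∈ pts 𝕂 (Tz z κ) s n, eval p (E s) = 0 := by
    intro z
    by_cases hz : z ∈ Z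
    · have h1 : ∀ s, Sol (Add x (y z (κ z))) (dif x (y z (κ z)) s) (pts 𝕂 (F ∪ C z (κ z)) s n)
          (pts 𝕂 (Tz z κ) s n) := by
        intro s
        by_contra hcon
        exact (hκ1 z hz).2 (Finset.mem_filter.2 ⟨Finset.mem_range.2 (hκ1 z hz).1, Or.inl ⟨s, hcon⟩⟩)
      choose E hE using h1
      exact ⟨E, fun _ s => hE s⟩
    · exact ⟨fun _ => 0, fun h => absurd h hz⟩
  choose E hE using hE
  have hplain : ∀ z ∈ Z, ∀ u : List Bool, false :: u ∈ Tz z κ → u ∈ Tab (y z (κ z)) →
      u ∈ Tab x := by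
    intro z hz u hu hut
    by_contra hcon
    exact (hκ1 z hz).2 (Finset.mem_filter.2 ⟨Finset.mem_range.2 (hκ1 z hz).1,
      Or.inr ⟨u, hu, hut, hcon⟩⟩)
  have hTsub : ∀ z ∈ Z, ∀ z' ∈ Z, z' ≠ z → C z' (κ z') ⊆ Tz z κ := fun z _ z' hz' hne =>
    Finset.subset_biUnion_of_mem (fun z' => C z' (κ z')) (Finset.mem_erase.2 ⟨hne, hz'⟩)
  have hFT : ∀ z ∈ Z, Same F x (y z (κ z)) := fun z hz =>
    ((hAlt z hz).same (κ z) (hκ1 z hz).1).mono Finset.subset_union_left
  set T' : Set (List Bool) := {u | u ∈ Tab x ∨ ∃ z ∈ Z, u ∈ Tab (y z (κ z))} with hT'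
  set P' : ∀ s, MvPolynomial (Fin n) (𝕂.K s) := fun s => x.1.2 s + ∑ z ∈ Z, E z s with hP'
  have hx' : ∀ s, (∀ i, (P' s).degreeOf i ≤ 2) ∧ ∀ w : Fin n → Bool,
      eval (cub (𝕂.K s) w) (P' s) = if decide (List.ofFn w ∈ T') then 1 else 0 := by
    intro s
    constructor
    · intro i
      refine (degreeOf_add_le i _ _).trans (max_le ((x.2 s).1 i) ?_)
      exact degreeOf_sum_le' _ _ i 2 fun z hz => (hE z hz s).1 i
    · intro w
      rw [hP']
      simp only [map_add, map_sum, decide_eq_true_eq]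
      have h1 : ∑ z ∈ Z, eval (cub (𝕂.K s) w) (E z s) =
          ∑ z ∈ Z, if w ∈ Add x (y z (κ z)) then (1 : 𝕂.K s) else 0 :=
        Finset.sum_congr rfl fun z hz => (hE z hz s).2.1 w
      rw [h1, (x.2 s).2 w]
      by_cases h2 : List.ofFn w ∈ Tab x
      · rw [if_pos (mem_tab.1 h2), Finset.sum_eq_zero, add_zero,
          if_pos (show List.ofFn w ∈ T' from Or.inl h2)]
        intro z _
        rw [if_neg]
        exact fun h3 => h3.2 h2
      · rw [if_neg (fun h3 => h2 (mem_tab.2 h3)), zero_add]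
        by_cases h3 : ∃ z ∈ Z, List.ofFn w ∈ Tab (y z (κ z))
        · obtain ⟨z, hz, hzw⟩ := h3
          rw [if_pos (show List.ofFn w ∈ T' from Or.inr ⟨z, hz, hzw⟩), Finset.sum_eq_single z,
            if_pos (show w ∈ Add x (y z (κ z)) from ⟨hzw, h2⟩)]
          · intro z' hz' hne
            rw [if_neg]
            exact fun h4 => hκ2 z' hz' z hz hne ⟨w, h4, hzw, h2⟩
          · exact fun h4 => absurd hz h4
        · rw [Finset.sum_eq_zero, if_neg]
          · rintro (h4 | h4)
            · exact h2 h4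
            · exact h3 h4
          · intro z hz
            rw [if_neg]
            exact fun h4 => h3 ⟨z, hz, h4.1⟩
  refine ⟨κ, (⟨(fun u => decide (u ∈ T'), P'), hx'⟩ : XW 𝕂 n), fun z hz => (hκ1 z hz).1, ?_, ?_, ?_⟩
  · constructor
    · intro u hu hl
      show decide (u ∈ T') = x.1.1 u
      rw [Bool.eq_iff_iff, decide_eq_true_iff]
      constructor
      · rintro (h | ⟨z, hz, h⟩)
        · exact h.2
        · rw [← (hFT z hz).1 u hu hl]
          exact h.2
      · exact fun h => Or.inl ⟨hl, h⟩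
    · intro s p hp
      show eval p (P' s) = eval p (x.1.2 s)
      rw [hP']
      simp only [map_add, map_sum]
      rw [Finset.sum_eq_zero, add_zero]
      intro z hz
      rw [(hE z hz s).2.2.1 p (pts_mono Finset.subset_union_left s n hp)]
      unfold dif
      rw [map_sub, (hFT z hz).2 s p hp, sub_self]
  · intro u
    constructor
    · rintro ⟨-, h⟩
      exact of_decide_eq_true h
    · intro h
      refine ⟨?_, decide_eq_true h⟩
      rcases h with h | ⟨z, -, h⟩
      · exact h.1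
      · exact h.1
  · intro z hz
    constructor
    · intro u hu hl
      show decide (u ∈ T') = (y z (κ z)).1.1 u
      rw [Bool.eq_iff_iff, decide_eq_true_iff]
      constructor
      · rintro (h | ⟨z', hz', h⟩)
        · exact ((hAlt z hz).sub _ (hκ1 z hz).1 h).2
        · by_cases hne : z' = z
          · rw [hne] at h
            exact h.2
          · have h1 := hplain z' hz' u (hTsub z' hz' z hz (Ne.symm hne) hu) h
            exact ((hAlt z hz).sub _ (hκ1 z hz).1 h1).2
      · exact fun h => Or.inr ⟨z, hz, hl, h⟩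
    · intro s p hp
      show eval p (P' s) = eval p ((y z (κ z)).1.2 s)
      rw [hP']
      simp only [map_add, map_sum]
      rw [Finset.sum_eq_single z]
      · rw [(hE z hz s).2.2.1 p (pts_mono Finset.subset_union_right s n hp)]
        unfold dif
        rw [map_sub, add_sub_cancel]
      · intro z' hz' hne
        exact (hE z' hz' s).2.2.2 p (pts_mono (hTsub z' hz' z hz (Ne.symm hne)) s n hp)
      · exact fun h => absurd hz h

end Pool.Agent.LibAA59
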