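import Pool.Agent.LibAA59.A4

/-!
Definitions for the one-sided construction.
-/

namespace Pool.Agent.LibAA59

open Classical Pool.Agent.LibAL48

variable {S : SysA} {N : ℕ} {ι κ γ : Type}

/-- `i` is free: no string of `fib i` is in the table. -/
def Free (fib : ι → Finset (List Bool)) (x : S.X N) (i : ι) : Prop := ∀ s ∈ fib i, s ∉ Tab x

/-- The free `i` whose strings can make the item accept, whatever `M` further queries are
protected. -/
noncomputable def lv (X : Finset ι) (fib : ι → Finset (List Bool)) (acc : S.X N → Prop)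
    (x : S.X N) (F : Finset (List Bool)) (M : ℕ) : Finset ι :=
  X.filter fun i => (∀ s ∈ fib i, s ∉ Tab x) ∧ ¬ Dead acc x F (fib i) M

/-- Accepting in all worlds with the same answers to `F`. -/
def Dcd (acc : S.X N → Prop) (x : S.X N) (F : Finset (List Bool)) : Prop :=
  ∀ x', Same F x x' → acc x'

/-- The undecided items of the group `c` for which more than `2 ^ (n - a)` free `i` are live. -/
noncomputable def hi (X : Finset ι) (fib : ι → Finset (List Bool)) (Z : Finset κ) (gr : κ → γ)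
    (acc : κ → S.X N → Prop) (n a M : ℕ) (x : S.X N) (F : Finset (List Bool)) (c : γ) : Finset κ :=
  Z.filter fun z => gr z = c ∧ ¬ Dcd (acc z) x F ∧ 2 ^ n < 2 ^ a * (lv X fib (acc z) x F M).card

/-- A controller: at the state `(x, F)` it stops (`none`) or prescribes queries `G` to be protected
and `i ∈ Φ` to be avoided (`some (G, Φ)`). -/
abbrev Ctrl (S : SysA) (N : ℕ) (ι : Type) :=
  S.X N → Finset (List Bool) → Option (Finset (List Bool) × Finset ι)

/-- Paths of `t` moves under the controller `C`: every move adds strings about one free `i`. The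
protected set grows by a factor at most `bd` in each move. -/
inductive Path (X : Finset ι) (fib : ι → Finset (List Bool)) (C : Ctrl S N ι) (bd : ℕ) :
    ℕ → S.X N → Finset (List Bool) → S.X N → Finset (List Bool) → Prop
  | nil (x : S.X N) (F : Finset (List Bool)) : Path X fib C bd 0 x F x F
  | step {t : ℕ} {x x₁ x₂ : S.X N} {F F₁ G F₂ : Finset (List Bool)} {Φ : Finset ι} {i : ι}
      (h : Path X fib C bd t x F x₁ F₁) (hC : C x₁ F₁ = some (G, Φ))
      (hi : i ∈ X) (hfr : ∀ s ∈ fib i, s ∉ Tab x₁) (hΦ : i ∉ Φ) (hm : Fut x₁ (F₁ ∪ G) (fib i) x₂)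
      (hF : F₁ ∪ G ⊆ F₂) (hc : F₂.card + 1 ≤ bd * (F₁.card + 1)) :
      Path X fib C bd (t + 1) x F x₂ F₂

/-- A layered family of items. `acc K z x` : the item `z` accepts, `K` being the set of coded items
and `x` the world at the level `N`. -/
structure GameA (S : SysA) (N : ℕ) (ι κ γ : Type) where
  X : Finset ι
  fib : ι → Finset (List Bool)
  Z : ℕ → Finset κ
  gr : κ → γ
  Gr : ℕ → Finset γ
  N0 : γ → ℕ
  acc : Finset κ → κ → S.X N → Prop

/-- The hypotheses: `2 ^ n` elements `i`; certificates of size `q`; the items of layer `l` see only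
the codes of lower layers; at most `zm` items and `2 ^ β` groups in every layer. -/
structure GameA.Ok (g : GameA S N ι κ γ) (n q zm β : ℕ) : Prop where
  cardX : g.X.card = 2 ^ n
  len : ∀ i ∈ g.X, ∀ s ∈ g.fib i, s.length = N
  dis : ∀ i ∈ g.X, ∀ j ∈ g.X, i ≠ j → Disjoint (g.fib i) (g.fib j)
  cert : ∀ l, ∀ z ∈ g.Z l, ∀ K, Cert q (g.acc K z)
  sees : ∀ l, ∀ z ∈ g.Z l, ∀ K K' : Finset κ, (∀ l' < l, ∀ p ∈ g.Z l', (p ∈ K ↔ p ∈ K')) →
    ∀ x, (g.acc K z x ↔ g.acc K' z x)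
  disZ : ∀ l l', l ≠ l' → Disjoint (g.Z l) (g.Z l')
  cardZ : ∀ l, (g.Z l).card ≤ zm
  grZ : ∀ l, ∀ z ∈ g.Z l, g.gr z ∈ g.Gr l
  cardG : ∀ l, (g.Gr l).card ≤ 2 ^ β
  posN : ∀ c, 0 < g.N0 c
  cardN : ∀ l, ∀ c ∈ g.Gr l, ((g.Z l).filter fun z => g.gr z = c).card ≤ g.N0 c

/-- The moves allowed at the end: nothing, or strings about one free `i` not in `Φ`. -/
def Mv (X : Finset ι) (fib : ι → Finset (List Bool)) (x : S.X N) (F : Finset (List Bool))
    (Φ : Finset ι) (x' : S.X N) : Prop :=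
  x' = x ∨ ∃ i ∈ X, (∀ s ∈ fib i, s ∉ Tab x) ∧ i ∉ Φ ∧ Fut x F (fib i) x'

/-- The factor by which the protected set grows for one layer at one state. -/
def pz (n q zm : ℕ) : ℕ :=
  2 ^ n * (zm * (2 * ((zm ^ 2 * (1 + q) + zm ^ 2 * q * (zm * q + q + 3) + 1) * q) + 1)) +
    zm * q + 1

theorem MM_le (q zm σ : ℕ) :
    MM zm q σ ≤ (2 * ((zm ^ 2 * (1 + q) + zm ^ 2 * q * (zm * q + q + 3) + 1) * q) + 1) *
      (σ + 1) := by
  unfold MM KK
  have h1 : zm ^ 2 * (σ + q) + zm ^ 2 * q * (zm * q + σ + q + 2) + 1 ≤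
      (zm ^ 2 * (1 + q) + zm ^ 2 * q * (zm * q + q + 3) + 1) * (σ + 1) := by
    nlinarith [Nat.zero_le (zm ^ 2), Nat.zero_le (zm ^ 2 * q), Nat.zero_le (zm ^ 2 * q * σ),
      Nat.zero_le (zm ^ 2 * q * (zm * q) * σ), Nat.zero_le (zm ^ 2 * q * q * σ),
      Nat.zero_le (zm ^ 2 * σ), Nat.zero_le σ, Nat.zero_le q]
  calc 2 * ((zm ^ 2 * (σ + q) + zm ^ 2 * q * (zm * q + σ + q + 2) + 1) * q) + σ
      ≤ 2 * (((zm ^ 2 * (1 + q) + zm ^ 2 * q * (zm * q + q + 3) + 1) * (σ + 1)) * q) +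
        (σ + 1) := by
        gcongr
        omega
    _ = _ := by ring

/-- The growth for one layer at one state. -/
theorem pz_spec (n q zm σ : ℕ) :
    σ + (2 ^ n * (zm * MM zm q σ) + zm * q) + 1 ≤ pz n q zm * (σ + 1) := by
  unfold pz
  have h1 := MM_le q zm σ
  have h2 : 2 ^ n * (zm * MM zm q σ) ≤ 2 ^ n * (zm *
      ((2 * ((zm ^ 2 * (1 + q) + zm ^ 2 * q * (zm * q + q + 3) + 1) * q) + 1) * (σ + 1))) := by
    gcongr
  have h3 : zm * q ≤ zm * q * (σ + 1) := Nat.le_mul_of_pos_right _ (Nat.succ_pos _)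
  calc σ + (2 ^ n * (zm * MM zm q σ) + zm * q) + 1
      ≤ σ + (2 ^ n * (zm * ((2 * ((zm ^ 2 * (1 + q) + zm ^ 2 * q * (zm * q + q + 3) + 1) * q) + 1) *
          (σ + 1))) + zm * q * (σ + 1)) + 1 := by omega
    _ = _ := by ring

theorem pz_pos (n q zm : ℕ) : 1 ≤ pz n q zm := by
  unfold pz
  omega

/-- The statement about the layers `l, ..., D - 1`: whatever the codes `K₀` of the lower layers and
the controller `C`, at most `T` moves lead from `(x, F)` to a state where `C` stops or which is good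
for all layers `l, ..., D - 1`. -/
def Sp (g : GameA S N ι κ γ) (n q zm R D : ℕ) (a : ℕ → ℕ) (l T : ℕ) : Prop :=
  ∀ (K₀ : Finset κ) (C : Ctrl S N ι),
    (∀ x F G Φ, C x F = some (G, Φ) → (F ∪ G).card + 1 ≤ pz n q zm ^ l * (F.card + 1) ∧
      Φ.card * 2 ^ (a l + 1) ≤ 2 ^ n) →
    ∀ (x : S.X N) (F : Finset (List Bool)), ∃ t ≤ T, ∃ (x' : S.X N) (F' : Finset (List Bool)),
      Path g.X g.fib C (pz n q zm ^ (D + 1)) t x F x' F' ∧
      (C x' F' = none ∨ ∃ G Φ, C x' F' = some (G, Φ) ∧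
        ∃ (K : Finset κ) (G' : Finset (List Bool)) (Φ' : Finset ι),
          (∀ z, (∀ l', l ≤ l' → z ∉ g.Z l') → (z ∈ K ↔ z ∈ K₀)) ∧ G ⊆ G' ∧
          (F' ∪ G').card + 1 ≤ pz n q zm ^ D * (F'.card + 1) ∧ Φ ⊆ Φ' ∧
          Φ'.card * 2 ^ (a D + 1) ≤ 2 ^ n ∧
          ∀ x'', Mv g.X g.fib x' (F' ∪ G') Φ' x'' →
            ∀ l', l ≤ l' → l' < D → ∀ c ∈ g.Gr l',
              2 ^ R * ((g.Z l').filter fun z => g.gr z = c ∧
                ¬ (z ∈ K ↔ ¬ g.acc K z x'')).card ≤ g.N0 c)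

end Pool.Agent.LibAA59
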