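import Pool.Agent.LibAA59.W1

/-!
Progress at a bad group.
-/

namespace Pool.Agent.LibAA59

open Classical Pool.Agent.LibAL48

variable {S : SysA} {N : ℕ} {ι κ γ : Type}

/-- Decided items stay decided. -/
theorem Dcd.mono {acc : S.X N → Prop} {x x' : S.X N} {F F' : Finset (List Bool)}
    (h : Dcd acc x F) (hs : Same F x x') (hF : F ⊆ F') : Dcd acc x' F' :=
  fun x'' hx'' => h x'' (hs.trans (hx''.mono hF))

theorem w2 (hS : Sim S) {X : Finset ι} {fib : ι → Finset (List Bool)} {Z : Finset κ} {gr : κ → γ}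
    {acc : κ → S.X N → Prop} {n a b q zm : ℕ} (hX : X.card = 2 ^ n) (hZ : Z.card ≤ zm)
    (hc : ∀ z ∈ Z, Cert q (acc z)) {x : S.X N} {F : Finset (List Bool)} {Φ : Finset ι}
    (hΦ : Φ.card * 2 ^ (a + 1) ≤ 2 ^ n) {N0 : ℕ} {c : γ}
    (hbad : N0 < 2 ^ b * (hi X fib Z gr acc n a (MM zm q F.card) x F c).card) :
    ∃ (i : ι) (x' : S.X N) (F' : Finset (List Bool)), i ∈ X ∧ (∀ s ∈ fib i, s ∉ Tab x) ∧ i ∉ Φ ∧
      Fut x F (fib i) x' ∧ F ⊆ F' ∧ F'.card ≤ F.card + zm * q ∧
      2 ^ (a + b + 1) * (Z.filter fun z => gr z = c ∧ Dcd (acc z) x F).card + N0 <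
        2 ^ (a + b + 1) * (Z.filter fun z => gr z = c ∧ Dcd (acc z) x' F').card := by
  set H := hi X fib Z gr acc n a (MM zm q F.card) x F c with hH
  have hHpos : 0 < H.card := by
    rcases Nat.eq_zero_or_pos H.card with h0 | h0
    · rw [h0, Nat.mul_zero] at hbad
      exact absurd hbad (Nat.not_lt_zero _)
    · exact h0
  have hHm : ∀ z ∈ H, z ∈ Z ∧ gr z = c ∧ ¬ Dcd (acc z) x F ∧
      2 ^ n < 2 ^ a * (lv X fib (acc z) x F (MM zm q F.card)).card := by
    intro z hz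
    rw [hH, hi, Finset.mem_filter] at hz
    exact hz
  have hlvX : ∀ z, lv X fib (acc z) x F (MM zm q F.card) ⊆ X := by
    intro z i hi
    exact (Finset.mem_filter.1 hi).1
  -- every item of `H` has many live `i` outside `Φ`
  have hL : ∀ z ∈ H,
      2 ^ n < 2 ^ (a + 1) * (lv X fib (acc z) x F (MM zm q F.card) \ Φ).card := by
    intro z hz
    have h1 := (hHm z hz).2.2.2
    have h2 := Finset.le_card_sdiff Φ (lv X fib (acc z) x F (MM zm q F.card))
    have h3 : (lv X fib (acc z) x F (MM zm q F.card)).card ≤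
        (lv X fib (acc z) x F (MM zm q F.card) \ Φ).card + Φ.card := by omega
    have h4 := Nat.mul_le_mul_left (2 ^ (a + 1)) h3
    have h5 : 2 ^ (a + 1) * (lv X fib (acc z) x F (MM zm q F.card)).card =
        2 * (2 ^ a * (lv X fib (acc z) x F (MM zm q F.card)).card) := by
      rw [pow_succ]; ring
    rw [h5, Nat.mul_add, Nat.mul_comm _ Φ.card] at h4
    omega
  -- double counting
  have hsum : ∑ z ∈ H, (lv X fib (acc z) x F (MM zm q F.card) \ Φ).card =
      ∑ i ∈ X \ Φ, (H.filter fun z => i ∈ lv X fib (acc z) x F (MM zm q F.card)).card := by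
    have h1 : ∀ z ∈ H, (lv X fib (acc z) x F (MM zm q F.card) \ Φ).card =
        ∑ i ∈ X \ Φ, if i ∈ lv X fib (acc z) x F (MM zm q F.card) then 1 else 0 := by
      intro z _
      rw [← Finset.card_filter]
      congr 1
      ext i
      rw [Finset.mem_sdiff, Finset.mem_filter, Finset.mem_sdiff]
      constructor
      · exact fun h => ⟨⟨hlvX z h.1, h.2⟩, h.1⟩
      · exact fun h => ⟨h.2, h.1.2⟩
    rw [Finset.sum_congr rfl h1, Finset.sum_comm]
    exact Finset.sum_congr rfl fun i _ => (Finset.card_filter _ _).symm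
  obtain ⟨i, hi, hic⟩ : ∃ i ∈ X \ Φ,
      H.card ≤ 2 ^ (a + 1) *
        (H.filter fun z => i ∈ lv X fib (acc z) x F (MM zm q F.card)).card := by
    by_contra hcon
    push Not at hcon
    have h1 : H.card * 2 ^ n <
        2 ^ (a + 1) * ∑ z ∈ H, (lv X fib (acc z) x F (MM zm q F.card) \ Φ).card := by
      rw [Finset.mul_sum, ← smul_eq_mul, ← Finset.sum_const]
      exact Finset.sum_lt_sum_of_nonempty (Finset.card_pos.1 hHpos) hL
    have h2 : 2 ^ (a + 1) * ∑ z ∈ H, (lv X fib (acc z) x F (MM zm q F.card) \ Φ).card ≤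
        H.card * 2 ^ n := by
      rw [hsum, Finset.mul_sum]
      calc ∑ i ∈ X \ Φ, 2 ^ (a + 1) *
            (H.filter fun z => i ∈ lv X fib (acc z) x F (MM zm q F.card)).card
          ≤ ∑ _i ∈ X \ Φ, H.card := Finset.sum_le_sum fun i hi => (hcon i hi).le
        _ = (X \ Φ).card * H.card := by rw [Finset.sum_const, smul_eq_mul]
        _ ≤ X.card * H.card := Nat.mul_le_mul_right _ (Finset.card_le_card Finset.sdiff_subset)
        _ = H.card * 2 ^ n := by rw [hX, Nat.mul_comm]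
    omega
  set Z' := H.filter fun z => i ∈ lv X fib (acc z) x F (MM zm q F.card) with hZ'
  have hZ'pos : 0 < Z'.card := by
    rcases Nat.eq_zero_or_pos Z'.card with h0 | h0
    · rw [h0, Nat.mul_zero] at hic
      omega
    · exact h0
  have hZ'm : ∀ z ∈ Z', z ∈ H ∧ i ∈ lv X fib (acc z) x F (MM zm q F.card) := fun z hz =>
    Finset.mem_filter.1 hz
  have hZ'Z : Z' ⊆ Z := fun z hz => (hHm z (hZ'm z hz).1).1
  have hZ'c : Z'.card ≤ zm := (Finset.card_le_card hZ'Z).trans hZ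
  have hdead : ∀ z ∈ Z', ¬ Dead (acc z) x F (fib i) (MM zm q F.card) := by
    intro z hz
    exact (Finset.mem_filter.1 (hZ'm z hz).2).2.2
  obtain ⟨x', F', hfut, hF1, hF2, hacc⟩ :=
    a3 hS Z' acc (fun z hz => hc z (hZ'Z hz)) x F (fib i) hZ'c hdead
  have hifr : ∀ s ∈ fib i, s ∉ Tab x := by
    obtain ⟨z, hz⟩ := Finset.card_pos.1 hZ'pos
    exact (Finset.mem_filter.1 (hZ'm z hz).2).2.1
  refine ⟨i, x', F', (Finset.mem_sdiff.1 hi).1, hifr, (Finset.mem_sdiff.1 hi).2, hfut, hF1,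
    hF2.trans (Nat.add_le_add_left (Nat.mul_le_mul_right _ hZ'c) _), ?_⟩
  have hdis : Disjoint (Z.filter fun z => gr z = c ∧ Dcd (acc z) x F) Z' := by
    rw [Finset.disjoint_left]
    intro z hz hz'
    exact (hHm z (hZ'm z hz').1).2.2.1 (Finset.mem_filter.1 hz).2.2
  have hsub : (Z.filter fun z => gr z = c ∧ Dcd (acc z) x F) ∪ Z' ⊆
      Z.filter fun z => gr z = c ∧ Dcd (acc z) x' F' := by
    intro z hz
    rw [Finset.mem_filter]
    rcases Finset.mem_union.1 hz with h | h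
    · have h1 := Finset.mem_filter.1 h
      exact ⟨h1.1, h1.2.1, h1.2.2.mono hfut.2.2 hF1⟩
    · exact ⟨hZ'Z h, (hHm z (hZ'm z h).1).2.1, hacc z h⟩
  have h1 := Finset.card_le_card hsub
  rw [Finset.card_union_of_disjoint hdis] at h1
  have h2 := Nat.mul_le_mul_left (2 ^ (a + b + 1)) h1
  have h3 : 2 ^ b * H.card ≤ 2 ^ (a + b + 1) * Z'.card := by
    calc 2 ^ b * H.card ≤ 2 ^ b * (2 ^ (a + 1) * Z'.card) := Nat.mul_le_mul_left _ hic
      _ = 2 ^ (a + b + 1) * Z'.card := by ring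
  rw [Nat.mul_add] at h2
  omega

end Pool.Agent.LibAA59
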