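import Pool.Agent.LibAA59.W1

/-!
The forbidden `i` of a layer without bad groups.
-/

namespace Pool.Agent.LibAA59

open Classical Pool.Agent.LibAL48

variable {S : SysA} {N : ℕ} {ι κ γ : Type}

theorem w3 {X : Finset ι} {fib : ι → Finset (List Bool)} {Z : Finset κ} {gr : κ → γ}
    {Γ : Finset γ} {acc : κ → S.X N → Prop} {n a b q zm β : ℕ} {N0 : γ → ℕ} (hX : X.card = 2 ^ n)
    (hZ : Z.card ≤ zm) (hc : ∀ z ∈ Z, Cert q (acc z)) (hΓ : Γ.card ≤ 2 ^ β)
    (hN0 : ∀ c, 0 < N0 c) (hN : ∀ c ∈ Γ, (Z.filter fun z => gr z = c).card ≤ N0 c)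
    (x : S.X N) (F : Finset (List Bool))
    (hgood : ∀ c ∈ Γ, 2 ^ b * (hi X fib Z gr acc n a (MM zm q F.card) x F c).card ≤ N0 c) :
    ∃ (G : Finset (List Bool)) (Φ' : Finset ι),
      G.card ≤ 2 ^ n * (zm * MM zm q F.card) + zm * q ∧ Φ'.card * 2 ^ a ≤ 2 ^ (n + b + β) ∧
      (∀ z ∈ Z, acc z x → Dcd (acc z) x (F ∪ G)) ∧
      ∀ x', Mv X fib x (F ∪ G) Φ' x' → ∀ c ∈ Γ,
        2 ^ b * (Z.filter fun z => gr z = c ∧ ¬ acc z x ∧ acc z x').card ≤ 2 * N0 c := by
  obtain ⟨M, hM⟩ : ∃ M, M = MM zm q F.card := ⟨_, rfl⟩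
  rw [← hM] at hgood
  -- the protected queries
  have hG1 : ∀ i : ι, ∀ z : κ, ∃ G : Finset (List Bool), G.card ≤ M ∧
      (Dead (acc z) x F (fib i) M → ∀ x', Fut x (F ∪ G) (fib i) x' → ¬ acc z x') := by
    intro i z
    by_cases h : Dead (acc z) x F (fib i) M
    · obtain ⟨G, h1, h2⟩ := h
      exact ⟨G, h1, fun _ => h2⟩
    · exact ⟨∅, by simp, fun h' => absurd h' h⟩
  choose G1 hG1c hG1 using hG1
  have hG2 : ∀ z : κ, ∃ V : Finset (List Bool), V.card ≤ q ∧ (z ∈ Z → acc z x →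
      ∀ x', Same V x x' → acc z x') := by
    intro z
    by_cases h : z ∈ Z ∧ acc z x
    · obtain ⟨V, h1, h2⟩ := hc z h.1 x h.2
      exact ⟨V, h1, fun _ _ => h2⟩
    · exact ⟨∅, by simp, fun h1 h2 => absurd ⟨h1, h2⟩ h⟩
  choose G2 hG2c hG2 using hG2
  let U : γ → ι → Finset κ := fun c i => Z.filter fun z => gr z = c ∧
    z ∉ hi X fib Z gr acc n a M x F c ∧ ¬ Dcd (acc z) x F ∧ i ∈ lv X fib (acc z) x F M
  let Y : γ → Finset ι := fun c => X.filter fun i => N0 c < 2 ^ b * (U c i).card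
  refine ⟨(X.biUnion fun i => Z.biUnion fun z => G1 i z) ∪ Z.biUnion G2,
    X.filter fun i => ∃ c ∈ Γ, N0 c < 2 ^ b * (U c i).card, ?_, ?_, ?_, ?_⟩
  · refine (Finset.card_union_le _ _).trans (Nat.add_le_add ?_ ?_)
    · rw [← hX, ← hM]
      refine Finset.card_biUnion_le_card_mul _ _ _ fun i _ => ?_
      refine (Finset.card_biUnion_le_card_mul _ _ M fun z _ => hG1c i z).trans ?_
      exact Nat.mul_le_mul_right _ hZ
    · refine (Finset.card_biUnion_le_card_mul _ _ q fun z _ => hG2c z).trans ?_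
      exact Nat.mul_le_mul_right _ hZ
  · have hlv : ∀ c : γ, ∀ z ∈ Z.filter (fun z => gr z = c ∧
        z ∉ hi X fib Z gr acc n a M x F c ∧ ¬ Dcd (acc z) x F),
        2 ^ a * (lv X fib (acc z) x F M).card ≤ 2 ^ n := by
      intro c z hz
      rw [Finset.mem_filter] at hz
      obtain ⟨hz1, hz2, hz3, hz4⟩ := hz
      by_contra hcon
      push Not at hcon
      apply hz3
      unfold hi
      rw [Finset.mem_filter]
      exact ⟨hz1, hz2, hz4, hcon⟩
    have hsum : ∀ c : γ, ∑ i ∈ X, (U c i).card ≤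
        ∑ z ∈ Z.filter (fun z => gr z = c ∧
          z ∉ hi X fib Z gr acc n a M x F c ∧ ¬ Dcd (acc z) x F),
          (lv X fib (acc z) x F M).card := by
      intro c
      have h1 : ∀ i ∈ X, (U c i).card = ∑ z ∈ Z.filter (fun z => gr z = c ∧
          z ∉ hi X fib Z gr acc n a M x F c ∧ ¬ Dcd (acc z) x F),
          if i ∈ lv X fib (acc z) x F M then 1 else 0 := by
        intro i _
        rw [← Finset.sum_filter, Finset.sum_const, smul_eq_mul, mul_one, Finset.filter_filter]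
        congr 1
        ext z
        simp only [U, Finset.mem_filter]
        tauto
      rw [Finset.sum_congr rfl h1, Finset.sum_comm]
      refine Finset.sum_le_sum fun z _ => ?_
      rw [← Finset.sum_filter, Finset.sum_const, smul_eq_mul, mul_one]
      refine Finset.card_le_card fun i hi => ?_
      rw [Finset.mem_filter] at hi
      exact hi.2
    have hY : ∀ c ∈ Γ, (Y c).card * 2 ^ a ≤ 2 ^ (n + b) := by
      intro c hcΓ
      have h1 : (Y c).card * N0 c ≤ ∑ i ∈ X, 2 ^ b * (U c i).card := by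
        calc (Y c).card * N0 c = ∑ i ∈ Y c, N0 c := by
              rw [Finset.sum_const, smul_eq_mul]
          _ ≤ ∑ i ∈ Y c, 2 ^ b * (U c i).card := by
              refine Finset.sum_le_sum fun i hi => ?_
              exact (Finset.mem_filter.1 hi).2.le
          _ ≤ ∑ i ∈ X, 2 ^ b * (U c i).card :=
              Finset.sum_le_sum_of_subset (Finset.filter_subset _ _)
      have h2 : 2 ^ a * ∑ i ∈ X, (U c i).card ≤ N0 c * 2 ^ n := by
        calc 2 ^ a * ∑ i ∈ X, (U c i).card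
            ≤ 2 ^ a * ∑ z ∈ Z.filter (fun z => gr z = c ∧
              z ∉ hi X fib Z gr acc n a M x F c ∧ ¬ Dcd (acc z) x F),
              (lv X fib (acc z) x F M).card := Nat.mul_le_mul_left _ (hsum c)
          _ = ∑ z ∈ Z.filter (fun z => gr z = c ∧
              z ∉ hi X fib Z gr acc n a M x F c ∧ ¬ Dcd (acc z) x F),
              2 ^ a * (lv X fib (acc z) x F M).card := by rw [Finset.mul_sum]
          _ ≤ ∑ z ∈ Z.filter (fun z => gr z = c ∧
              z ∉ hi X fib Z gr acc n a M x F c ∧ ¬ Dcd (acc z) x F), 2 ^ n :=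
              Finset.sum_le_sum (hlv c)
          _ = (Z.filter (fun z => gr z = c ∧
              z ∉ hi X fib Z gr acc n a M x F c ∧ ¬ Dcd (acc z) x F)).card * 2 ^ n := by
              rw [Finset.sum_const, smul_eq_mul]
          _ ≤ N0 c * 2 ^ n := by
              refine Nat.mul_le_mul_right _ (le_trans (Finset.card_le_card ?_) (hN c hcΓ))
              intro z hz
              rw [Finset.mem_filter] at hz ⊢
              exact ⟨hz.1, hz.2.1⟩
      have h3 : (Y c).card * 2 ^ a * N0 c ≤ 2 ^ (n + b) * N0 c := by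
        calc (Y c).card * 2 ^ a * N0 c = 2 ^ a * ((Y c).card * N0 c) := by ring
          _ ≤ 2 ^ a * ∑ i ∈ X, 2 ^ b * (U c i).card := Nat.mul_le_mul_left _ h1
          _ = 2 ^ b * (2 ^ a * ∑ i ∈ X, (U c i).card) := by
              rw [← Finset.mul_sum]; ring
          _ ≤ 2 ^ b * (N0 c * 2 ^ n) := Nat.mul_le_mul_left _ h2
          _ = 2 ^ (n + b) * N0 c := by rw [pow_add]; ring
      exact Nat.le_of_mul_le_mul_right h3 (hN0 c)
    have hsub : (X.filter fun i => ∃ c ∈ Γ, N0 c < 2 ^ b * (U c i).card) ⊆ Γ.biUnion Y := by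
      intro i hi
      rw [Finset.mem_filter] at hi
      obtain ⟨hi1, c, hcΓ, hi2⟩ := hi
      rw [Finset.mem_biUnion]
      exact ⟨c, hcΓ, Finset.mem_filter.2 ⟨hi1, hi2⟩⟩
    calc (X.filter fun i => ∃ c ∈ Γ, N0 c < 2 ^ b * (U c i).card).card * 2 ^ a
        ≤ (∑ c ∈ Γ, (Y c).card) * 2 ^ a :=
          Nat.mul_le_mul_right _ ((Finset.card_le_card hsub).trans Finset.card_biUnion_le)
      _ = ∑ c ∈ Γ, (Y c).card * 2 ^ a := by rw [Finset.sum_mul]
      _ ≤ ∑ c ∈ Γ, 2 ^ (n + b) := Finset.sum_le_sum hY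
      _ = Γ.card * 2 ^ (n + b) := by rw [Finset.sum_const, smul_eq_mul]
      _ ≤ 2 ^ β * 2 ^ (n + b) := Nat.mul_le_mul_right _ hΓ
      _ = 2 ^ (n + b + β) := by rw [← pow_add]; congr 1; ring
  · intro z hz hacc x' hx'
    refine hG2 z hz hacc x' (hx'.mono ?_)
    refine Finset.Subset.trans ?_ Finset.subset_union_right
    exact (Finset.subset_biUnion_of_mem G2 hz).trans Finset.subset_union_right
  · intro x' hP c hcΓ
    rcases hP with hP | ⟨i, hiX, hfr, hiΦ, hm⟩
    · have h1 : (Z.filter fun z => gr z = c ∧ ¬ acc z x ∧ acc z x') = ∅ := by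
        rw [Finset.filter_eq_empty_iff]
        rintro z _ ⟨_, h2, h3⟩
        rw [hP] at h3
        exact h2 h3
      rw [h1]
      simp
    · have hsub : (Z.filter fun z => gr z = c ∧ ¬ acc z x ∧ acc z x') ⊆
          hi X fib Z gr acc n a M x F c ∪ U c i := by
        intro z hz
        rw [Finset.mem_filter] at hz
        obtain ⟨hz1, hz2, hz3, hz4⟩ := hz
        rw [Finset.mem_union]
        by_cases h1 : z ∈ hi X fib Z gr acc n a M x F c
        · exact Or.inl h1
        · refine Or.inr (Finset.mem_filter.2 ⟨hz1, hz2, h1, fun h2 => hz3 ?_, ?_⟩)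
          · exact h2 x (Same.refl _ _)
          · refine Finset.mem_filter.2 ⟨hiX, hfr, fun h2 => ?_⟩
            refine hG1 i z h2 x' (hm.mono ?_ subset_rfl) hz4
            refine Finset.union_subset_union_right ?_
            intro v hv
            refine Finset.mem_union_left _ ?_
            exact Finset.mem_biUnion.2 ⟨i, hiX, Finset.mem_biUnion.2 ⟨z, hz1, hv⟩⟩
      have hU : 2 ^ b * (U c i).card ≤ N0 c := by
        by_contra hcon
        push Not at hcon
        exact hiΦ (Finset.mem_filter.2 ⟨hiX, c, hcΓ, hcon⟩)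
      have hH := hgood c hcΓ
      calc 2 ^ b * (Z.filter fun z => gr z = c ∧ ¬ acc z x ∧ acc z x').card
          ≤ 2 ^ b * ((hi X fib Z gr acc n a M x F c).card + (U c i).card) :=
            Nat.mul_le_mul_left _ ((Finset.card_le_card hsub).trans (Finset.card_union_le _ _))
        _ = 2 ^ b * (hi X fib Z gr acc n a M x F c).card + 2 ^ b * (U c i).card := by ring
        _ ≤ N0 c + N0 c := Nat.add_le_add hH hU
        _ = 2 * N0 c := by ring

end Pool.Agent.LibAA59
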