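import Pool.Agent.LibAA59.W1

/-!
Few items flip along a path.
-/

namespace Pool.Agent.LibAA59

open Classical Pool.Agent.LibAL48

variable {S : SysA} {N : ℕ} {ι κ γ : Type}

theorem Path.sub {X : Finset ι} {fib : ι → Finset (List Bool)} {C : Ctrl S N ι} {bd t : ℕ}
    {x x' : S.X N} {F F' : Finset (List Bool)} (h : Path X fib C bd t x F x' F') :
    Fut x F (X.biUnion fib) x' ∧ F ⊆ F' ∧ F'.card + 1 ≤ bd ^ t * (F.card + 1) := by
  induction h with
  | nil x F => exact ⟨Fut.refl _ _ _, subset_rfl, by simp⟩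
  | @step t x x₁ x₂ F F₁ G F₂ Φ i h hC hi hfr hΦ hm hF hc ih =>
    obtain ⟨h1, h2, h5⟩ := ih
    have hF1 : F₁ ⊆ F₂ := Finset.subset_union_left.trans hF
    refine ⟨h1.trans (hm.mono Finset.subset_union_left (Finset.subset_biUnion_of_mem fib hi)) h2,
      h2.trans hF1, ?_⟩
    calc F₂.card + 1 ≤ bd * (F₁.card + 1) := hc
      _ ≤ bd * (bd ^ t * (F.card + 1)) := Nat.mul_le_mul_left _ h5
      _ = bd ^ (t + 1) * (F.card + 1) := by rw [pow_succ]; ring

theorem Path.trans {X : Finset ι} {fib : ι → Finset (List Bool)} {C : Ctrl S N ι} {bd t t' : ℕ}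
    {x x' x'' : S.X N} {F F' F'' : Finset (List Bool)} (h : Path X fib C bd t x F x' F')
    (h' : Path X fib C bd t' x' F' x'' F'') : Path X fib C bd (t + t') x F x'' F'' := by
  induction h' with
  | nil x F => exact h
  | step h' hC hi hfr hΦ hm hF hc ih => exact Path.step (ih h) hC hi hfr hΦ hm hF hc

/-- Paths for a stronger controller are paths. -/
theorem Path.weaken {X : Finset ι} {fib : ι → Finset (List Bool)} {C C' : Ctrl S N ι} {bd t : ℕ}
    (hCC : ∀ x F G Φ, C' x F = some (G, Φ) → ∃ G₀ Φ₀, C x F = some (G₀, Φ₀) ∧ G₀ ⊆ G ∧ Φ₀ ⊆ Φ)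
    {x x' : S.X N} {F F' : Finset (List Bool)} (h : Path X fib C' bd t x F x' F') :
    Path X fib C bd t x F x' F' := by
  induction h with
  | nil x F => exact Path.nil x F
  | @step t x x₁ x₂ F F₁ G F₂ Φ i h hC hi hfr hΦ hm hF hc ih =>
    obtain ⟨G₀, Φ₀, h1, h2, h3⟩ := hCC _ _ _ _ hC
    refine Path.step ih h1 hi hfr (fun h4 => hΦ (h3 h4)) (hm.mono ?_ subset_rfl) ?_ hc
    · exact Finset.union_subset_union_right h2
    · exact (Finset.union_subset_union_right h2).trans hF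

/-- The number of `i` which are no longer free. -/
theorem Path.used {X : Finset ι} {fib : ι → Finset (List Bool)} {C : Ctrl S N ι} {bd t : ℕ}
    (hdis : ∀ i ∈ X, ∀ j ∈ X, i ≠ j → Disjoint (fib i) (fib j))
    {x x' : S.X N} {F F' : Finset (List Bool)} (h : Path X fib C bd t x F x' F') :
    (X.filter fun i => ¬ ∀ s ∈ fib i, s ∉ Tab x').card ≤
      (X.filter fun i => ¬ ∀ s ∈ fib i, s ∉ Tab x).card + t := by
  induction h with
  | nil x F => simp
  | @step t x x₁ x₂ F F₁ G F₂ Φ i h hC hi hfr hΦ hm hF hc ih =>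
    have h1 : (X.filter fun j => ¬ ∀ s ∈ fib j, s ∉ Tab x₂) ⊆
        insert i (X.filter fun j => ¬ ∀ s ∈ fib j, s ∉ Tab x₁) := by
      intro j hj
      obtain ⟨hj1, hj2⟩ := Finset.mem_filter.1 hj
      by_cases hji : j = i
      · rw [hji]
        exact Finset.mem_insert_self _ _
      · refine Finset.mem_insert_of_mem (Finset.mem_filter.2 ⟨hj1, fun h2 => hj2 ?_⟩)
        intro s hs hst
        rcases hm.2.1 hst with h3 | h3
        · exact h2 s hs h3
        · exact Finset.disjoint_left.1 (hdis j hj1 i hi hji) hs (Finset.mem_coe.1 h3)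
    have h2 := (Finset.card_le_card h1).trans (Finset.card_insert_le _ _)
    omega

theorem w4 {X : Finset ι} {fib : ι → Finset (List Bool)} {Z : Finset κ} {gr : κ → γ}
    {Γ : Finset γ} {acc : κ → S.X N → Prop} {b : ℕ} {N0 : γ → ℕ} {C : Ctrl S N ι} {bd t : ℕ}
    (hkeep : ∀ x F G Φ, C x F = some (G, Φ) → ∀ z ∈ Z, acc z x → Dcd (acc z) x (F ∪ G))
    (hflip : ∀ x F G Φ, C x F = some (G, Φ) → ∀ x', Mv X fib x (F ∪ G) Φ x' → ∀ c ∈ Γ,
        2 ^ b * (Z.filter fun z => gr z = c ∧ ¬ acc z x ∧ acc z x').card ≤ 2 * N0 c)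
    {x x' : S.X N} {F F' : Finset (List Bool)} (h : Path X fib C bd t x F x' F') :
    (∀ z ∈ Z, acc z x → acc z x') ∧
    ∀ c ∈ Γ, 2 ^ b * (Z.filter fun z => gr z = c ∧ ¬ acc z x ∧ acc z x').card ≤
      2 * t * N0 c := by
  induction h with
  | nil x F =>
    refine ⟨fun z _ h => h, fun c _ => ?_⟩
    have h1 : (Z.filter fun z => gr z = c ∧ ¬ acc z x ∧ acc z x) = ∅ := by
      rw [Finset.filter_eq_empty_iff]
      rintro z _ ⟨-, h2, h3⟩
      exact h2 h3
    rw [h1]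
    simp
  | @step t x x₁ x₂ F F₁ G F₂ Φ i h hC hi hfr hΦ hm hF hc ih =>
    obtain ⟨ih1, ih2⟩ := ih
    refine ⟨fun z hz hzQ => ?_, fun c hcΓ => ?_⟩
    · exact hkeep _ _ _ _ hC z hz (ih1 z hz hzQ) x₂ hm.2.2
    · have h1 : (Z.filter fun z => gr z = c ∧ ¬ acc z x ∧ acc z x₂) ⊆
          (Z.filter fun z => gr z = c ∧ ¬ acc z x ∧ acc z x₁) ∪
          (Z.filter fun z => gr z = c ∧ ¬ acc z x₁ ∧ acc z x₂) := by
        intro z hz
        obtain ⟨hz1, hz2, hz3, hz4⟩ := Finset.mem_filter.1 hz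
        by_cases h2 : acc z x₁
        · exact Finset.mem_union_left _ (Finset.mem_filter.2 ⟨hz1, hz2, hz3, h2⟩)
        · exact Finset.mem_union_right _ (Finset.mem_filter.2 ⟨hz1, hz2, h2, hz4⟩)
      have h2 := (Finset.card_le_card h1).trans (Finset.card_union_le _ _)
      have h3 := ih2 c hcΓ
      have h4 := hflip _ _ _ _ hC x₂ (Or.inr ⟨i, hi, hfr, hΦ, hm⟩) c hcΓ
      calc 2 ^ b * (Z.filter fun z => gr z = c ∧ ¬ acc z x ∧ acc z x₂).card
          ≤ 2 ^ b * ((Z.filter fun z => gr z = c ∧ ¬ acc z x ∧ acc z x₁).card +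
            (Z.filter fun z => gr z = c ∧ ¬ acc z x₁ ∧ acc z x₂).card) :=
            Nat.mul_le_mul_left _ h2
        _ ≤ 2 * t * N0 c + 2 * N0 c := by
            rw [Nat.mul_add]
            exact Nat.add_le_add h3 h4
        _ = 2 * (t + 1) * N0 c := by ring

end Pool.Agent.LibAA59
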