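import Pool.Agent.LibAA59.W2
import Pool.Agent.LibAA59.W3
import Pool.Agent.LibAA59.W4

/-!
One more layer.
-/

namespace Pool.Agent.LibAA59

open Classical Pool.Agent.LibAL48

variable {S : SysA} {N : ℕ} {ι κ γ : Type}

theorem Mv.mono {X : Finset ι} {fib : ι → Finset (List Bool)} {x x' : S.X N}
    {F F' : Finset (List Bool)} {Φ Φ' : Finset ι} (h : Mv X fib x F' Φ' x') (hF : F ⊆ F')
    (hΦ : Φ ⊆ Φ') : Mv X fib x F Φ x' := by
  rcases h with h | ⟨i, h1, h2, h3, h4⟩
  · exact Or.inl h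
  · exact Or.inr ⟨i, h1, h2, fun h => h3 (hΦ h), h4.mono hF subset_rfl⟩

theorem Mv.same {X : Finset ι} {fib : ι → Finset (List Bool)} {x x' : S.X N}
    {F : Finset (List Bool)} {Φ : Finset ι} (h : Mv X fib x F Φ x') : Same F x x' := by
  rcases h with h | ⟨i, h1, h2, h3, h4⟩
  · rw [h]
    exact Same.refl _ _
  · exact h4.2.2

theorem w5 (hSim : Sim S) {g : GameA S N ι κ γ} {n q zm β R D : ℕ} (hg : g.Ok n q zm β)
    {a : ℕ → ℕ} {b τ l T : ℕ} (hl : l < D) (hS : Sp g n q zm R D a (l + 1) T)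
    (hT : T + 1 ≤ 2 ^ τ) (hb : R + 1 + τ ≤ b) (ha : a (l + 1) + b + β + 2 ≤ a l) :
    Sp g n q zm R D a l (2 ^ (a l + b + β + 2) * 2 ^ τ) := by
  intro K₀ C hC
  -- abbreviations
  set Z := g.Z l with hZdef
  have hcZ : ∀ z ∈ Z, Cert q (g.acc K₀ z) := fun z hz => hg.cert l z hz K₀
  have hZc : Z.card ≤ zm := hg.cardZ l
  have hΓ : (g.Gr l).card ≤ 2 ^ β := hg.cardG l
  have hN : ∀ c ∈ g.Gr l, (Z.filter fun z => g.gr z = c).card ≤ g.N0 c := hg.cardN l
  -- the good states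
  let good : S.X N → Finset (List Bool) → Prop := fun x F =>
    ∀ c ∈ g.Gr l, 2 ^ b * (hi g.X g.fib Z g.gr (g.acc K₀) n (a l) (MM zm q F.card) x F c).card ≤
      g.N0 c
  have h3 : ∀ (x : S.X N) (F : Finset (List Bool)), ∃ (G : Finset (List Bool)) (Φ' : Finset ι),
      good x F →
      (G.card ≤ 2 ^ n * (zm * MM zm q F.card) + zm * q ∧ Φ'.card * 2 ^ (a l) ≤ 2 ^ (n + b + β) ∧
      (∀ z ∈ Z, g.acc K₀ z x → Dcd (g.acc K₀ z) x (F ∪ G)) ∧
      ∀ x', Mv g.X g.fib x (F ∪ G) Φ' x' → ∀ c ∈ g.Gr l,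
        2 ^ b * (Z.filter fun z => g.gr z = c ∧ ¬ g.acc K₀ z x ∧ g.acc K₀ z x').card
          ≤ 2 * g.N0 c) := by
    intro x F
    by_cases hgd : good x F
    · obtain ⟨G, Φ', h⟩ := w3 (X := g.X) (fib := g.fib) (Z := Z) (gr := g.gr) (Γ := g.Gr l)
        (acc := g.acc K₀) (n := n) (a := a l) (b := b) (q := q) (zm := zm) (β := β) (N0 := g.N0)
        hg.cardX hZc hcZ hΓ hg.posN hN x F hgd
      exact ⟨G, Φ', fun _ => h⟩
    · exact ⟨∅, ∅, fun h => absurd h hgd⟩
  choose Gl Φl hl3 using h3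
  let C' : Ctrl S N ι := fun x F =>
    match C x F with
    | none => none
    | some (G, Φ) => if good x (F ∪ G) then some (G ∪ Gl x (F ∪ G), Φ ∪ Φl x (F ∪ G)) else none
  have hC'some : ∀ x F G Φ, C' x F = some (G, Φ) → ∃ G₀ Φ₀, C x F = some (G₀, Φ₀) ∧
      good x (F ∪ G₀) ∧ G = G₀ ∪ Gl x (F ∪ G₀) ∧ Φ = Φ₀ ∪ Φl x (F ∪ G₀) := by
    intro x F G Φ h
    simp only [C'] at h
    split at h
    · exact absurd h (by simp)
    · rename_i G₀ Φ₀ hCQ
      split at h
      · rename_i hgd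
        simp only [Option.some.injEq, Prod.mk.injEq] at h
        exact ⟨G₀, Φ₀, hCQ, hgd, h.1.symm, h.2.symm⟩
      · exact absurd h (by simp)
  have hC'none : ∀ x F, C' x F = none → C x F = none ∨ ∃ G₀ Φ₀, C x F = some (G₀, Φ₀) ∧
      ¬ good x (F ∪ G₀) := by
    intro x F h
    simp only [C'] at h
    split at h
    · rename_i hCQ
      exact Or.inl hCQ
    · rename_i G₀ Φ₀ hCQ
      split at h
      · exact absurd h (by simp)
      · rename_i hgd
        exact Or.inr ⟨G₀, Φ₀, hCQ, hgd⟩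
  have hpz := pz_pos n q zm
  -- bounds of the new controller
  have hC'bd : ∀ x F G Φ, C' x F = some (G, Φ) →
      (F ∪ G).card + 1 ≤ pz n q zm ^ (l + 1) * (F.card + 1) ∧
      Φ.card * 2 ^ (a (l + 1) + 1) ≤ 2 ^ n := by
    intro x F G Φ h
    obtain ⟨G₀, Φ₀, h1, hgd, rfl, rfl⟩ := hC'some x F G Φ h
    obtain ⟨b1, b2, -, -⟩ := hl3 x (F ∪ G₀) hgd
    obtain ⟨c1, c2⟩ := hC x F G₀ Φ₀ h1
    constructor
    · have e1 : (F ∪ (G₀ ∪ Gl x (F ∪ G₀))).card ≤ (F ∪ G₀).card + (Gl x (F ∪ G₀)).card := by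
        rw [← Finset.union_assoc]
        exact Finset.card_union_le _ _
      have e2 := pz_spec n q zm (F ∪ G₀).card
      calc (F ∪ (G₀ ∪ Gl x (F ∪ G₀))).card + 1 ≤ pz n q zm * ((F ∪ G₀).card + 1) := by omega
        _ ≤ pz n q zm * (pz n q zm ^ l * (F.card + 1)) := Nat.mul_le_mul_left _ c1
        _ = pz n q zm ^ (l + 1) * (F.card + 1) := by rw [pow_succ]; ring
    · have e1 : Φ₀.card * 2 ^ (a (l + 1) + 2) ≤ 2 ^ n :=
        le_trans (Nat.mul_le_mul_left _ (Nat.pow_le_pow_right (by norm_num) (by omega))) c2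
      have e2 : (Φl x (F ∪ G₀)).card * 2 ^ (a (l + 1) + 2) ≤ 2 ^ n := by
        have h5 : (Φl x (F ∪ G₀)).card * 2 ^ (a (l + 1) + 2) * 2 ^ (b + β) ≤
            2 ^ n * 2 ^ (b + β) := by
          calc (Φl x (F ∪ G₀)).card * 2 ^ (a (l + 1) + 2) * 2 ^ (b + β)
              = (Φl x (F ∪ G₀)).card * 2 ^ (a (l + 1) + b + β + 2) := by
                rw [mul_assoc, ← pow_add]; congr 2; ring
            _ ≤ (Φl x (F ∪ G₀)).card * 2 ^ (a l) :=
                Nat.mul_le_mul_left _ (Nat.pow_le_pow_right (by norm_num) ha)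
            _ ≤ 2 ^ (n + b + β) := b2
            _ = 2 ^ n * 2 ^ (b + β) := by rw [← pow_add]; congr 1; ring
        exact Nat.le_of_mul_le_mul_right h5 (by positivity)
      have e3 : (Φ₀ ∪ Φl x (F ∪ G₀)).card ≤ Φ₀.card + (Φl x (F ∪ G₀)).card :=
        Finset.card_union_le _ _
      have e4 : 2 ^ (a (l + 1) + 2) = 2 * 2 ^ (a (l + 1) + 1) := by rw [pow_succ]; ring
      have e5 : (Φ₀ ∪ Φl x (F ∪ G₀)).card * 2 ^ (a (l + 1) + 1) ≤
          (Φ₀.card + (Φl x (F ∪ G₀)).card) * 2 ^ (a (l + 1) + 1) := Nat.mul_le_mul_right _ e3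
      rw [e4] at e1 e2
      nlinarith [e1, e2, e5]
  -- the hypotheses of `w4` for `C'`
  have hkeep : ∀ x F G Φ, C' x F = some (G, Φ) → ∀ z ∈ Z, g.acc K₀ z x →
      Dcd (g.acc K₀ z) x (F ∪ G) := by
    intro x F G Φ h z hz haz
    obtain ⟨G₀, Φ₀, h1, hgd, rfl, rfl⟩ := hC'some x F G Φ h
    obtain ⟨-, -, b3, -⟩ := hl3 x (F ∪ G₀) hgd
    have := b3 z hz haz
    rwa [Finset.union_assoc] at this
  have hflip : ∀ x F G Φ, C' x F = some (G, Φ) → ∀ x', Mv g.X g.fib x (F ∪ G) Φ x' →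
      ∀ c ∈ g.Gr l,
        2 ^ b * (Z.filter fun z => g.gr z = c ∧ ¬ g.acc K₀ z x ∧ g.acc K₀ z x').card
          ≤ 2 * g.N0 c := by
    intro x F G Φ h x' hx' c hc
    obtain ⟨G₀, Φ₀, h1, hgd, rfl, rfl⟩ := hC'some x F G Φ h
    obtain ⟨-, -, -, b4⟩ := hl3 x (F ∪ G₀) hgd
    refine b4 x' (hx'.mono ?_ Finset.subset_union_right) c hc
    rw [Finset.union_assoc]
  -- the potential
  let cnt : S.X N → Finset (List Bool) → γ → ℕ := fun x F c =>
    (Z.filter fun z => g.gr z = c ∧ Dcd (g.acc K₀ z) x F).card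
  let Ψ : S.X N → Finset (List Bool) → ℕ := fun x F =>
    ∑ c ∈ g.Gr l, 2 ^ (a l + b + 1) * cnt x F c / g.N0 c
  have hcntmono : ∀ (x x' : S.X N) (F F' : Finset (List Bool)), Same F x x' → F ⊆ F' → ∀ c,
      cnt x F c ≤ cnt x' F' c := by
    intro x x' F F' hs hF c
    apply Finset.card_le_card
    intro z hz
    simp only [Finset.mem_filter] at hz ⊢
    exact ⟨hz.1, hz.2.1, hz.2.2.mono hs hF⟩
  have hΨle : ∀ x F, Ψ x F ≤ 2 ^ (a l + b + 1 + β) := by
    intro x F
    calc Ψ x F ≤ ∑ c ∈ g.Gr l, 2 ^ (a l + b + 1) := by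
          apply Finset.sum_le_sum
          intro c hc
          apply Nat.div_le_of_le_mul
          rw [mul_comm (g.N0 c)]
          apply Nat.mul_le_mul_left
          refine le_trans (Finset.card_le_card ?_) (hN c hc)
          intro z hz
          simp only [Finset.mem_filter] at hz ⊢
          exact ⟨hz.1, hz.2.1⟩
      _ = (g.Gr l).card * 2 ^ (a l + b + 1) := by rw [Finset.sum_const, smul_eq_mul]
      _ ≤ 2 ^ β * 2 ^ (a l + b + 1) := Nat.mul_le_mul_right _ hΓ
      _ = 2 ^ (a l + b + 1 + β) := by rw [← pow_add]; congr 1; ring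
  -- one phase
  let Done : S.X N → Finset (List Bool) → Prop := fun x' F' =>
      (C x' F' = none ∨ ∃ G Φ, C x' F' = some (G, Φ) ∧
        ∃ (K : Finset κ) (G' : Finset (List Bool)) (Φ' : Finset ι),
          (∀ z, (∀ l', l ≤ l' → z ∉ g.Z l') → (z ∈ K ↔ z ∈ K₀)) ∧ G ⊆ G' ∧
          (F' ∪ G').card + 1 ≤ pz n q zm ^ D * (F'.card + 1) ∧ Φ ⊆ Φ' ∧
          Φ'.card * 2 ^ (a D + 1) ≤ 2 ^ n ∧
          ∀ x'', Mv g.X g.fib x' (F' ∪ G') Φ' x'' →
            ∀ l', l ≤ l' → l' < D → ∀ c ∈ g.Gr l',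
              2 ^ R * ((g.Z l').filter fun z => g.gr z = c ∧
                ¬ (z ∈ K ↔ ¬ g.acc K z x'')).card ≤ g.N0 c)
  have phase : ∀ (x : S.X N) (F : Finset (List Bool)), ∃ t ≤ T + 1,
      ∃ (x' : S.X N) (F' : Finset (List Bool)),
      Path g.X g.fib C (pz n q zm ^ (D + 1)) t x F x' F' ∧
      (Done x' F' ∨ Ψ x F + 1 ≤ Ψ x' F') := by
    intro x F
    let K₁ : Finset κ := (K₀ \ Z) ∪ Z.filter (fun z => ¬ g.acc K₀ z x)
    have hK₁Z : ∀ z ∈ Z, (z ∈ K₁ ↔ ¬ g.acc K₀ z x) := by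
      intro z hz
      simp only [K₁, Finset.mem_union, Finset.mem_sdiff, Finset.mem_filter]
      tauto
    have hK₁n : ∀ z, z ∉ Z → (z ∈ K₁ ↔ z ∈ K₀) := by
      intro z hz
      simp only [K₁, Finset.mem_union, Finset.mem_sdiff, Finset.mem_filter]
      tauto
    obtain ⟨t, ht, x', F', hp', hcase⟩ := hS K₁ C' hC'bd x F
    have hp : Path g.X g.fib C (pz n q zm ^ (D + 1)) t x F x' F' := by
      refine Path.weaken ?_ hp'
      intro x F G Φ h
      obtain ⟨G₀, Φ₀, h1, -, rfl, rfl⟩ := hC'some x F G Φ h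
      exact ⟨G₀, Φ₀, h1, Finset.subset_union_left, Finset.subset_union_left⟩
    obtain ⟨hfut, hFF', -⟩ := hp.sub
    rcases hcase with hnone | ⟨G, Φ, hsome, K, G', Φ', hK, hGG', hG'c, hΦΦ', hΦ'c, herr⟩
    · rcases hC'none x' F' hnone with h | ⟨G₀, Φ₀, h1, hbad⟩
      · exact ⟨t, by omega, x', F', hp, Or.inl (Or.inl h)⟩
      · -- a bad group: one more move
        have hbad' : ∃ c ∈ g.Gr l, g.N0 c < 2 ^ b * (hi g.X g.fib Z g.gr (g.acc K₀) n (a l)
            (MM zm q (F' ∪ G₀).card) x' (F' ∪ G₀) c).card := by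
          by_contra hcon
          push Not at hcon
          exact hbad hcon
        obtain ⟨c, hc, hcb⟩ := hbad'
        obtain ⟨c1, c2⟩ := hC x' F' G₀ Φ₀ h1
        obtain ⟨i, x'', F'', hi, hifr, hiΦ, hm, hFF'', hF''c, hinc⟩ :=
          w2 hSim (X := g.X) (fib := g.fib) (Z := Z) (gr := g.gr) (acc := g.acc K₀) (n := n)
            (a := a l) (b := b) (q := q) (zm := zm) hg.cardX hZc hcZ (x := x') (F := F' ∪ G₀)
            (Φ := Φ₀) c2 (N0 := g.N0 c) (c := c) hcb
        have hbd : F''.card + 1 ≤ pz n q zm ^ (D + 1) * (F'.card + 1) := by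
          have e2 := pz_spec n q zm (F' ∪ G₀).card
          have e3 : pz n q zm ^ (l + 1) ≤ pz n q zm ^ (D + 1) :=
            Nat.pow_le_pow_right hpz (by omega)
          calc F''.card + 1 ≤ pz n q zm * ((F' ∪ G₀).card + 1) := by omega
            _ ≤ pz n q zm * (pz n q zm ^ l * (F'.card + 1)) := Nat.mul_le_mul_left _ c1
            _ = pz n q zm ^ (l + 1) * (F'.card + 1) := by rw [pow_succ]; ring
            _ ≤ pz n q zm ^ (D + 1) * (F'.card + 1) := Nat.mul_le_mul_right _ e3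
        have hstep : Path g.X g.fib C (pz n q zm ^ (D + 1)) (t + 1) x F x'' F'' :=
          Path.step hp h1 hi hifr hiΦ hm hFF'' hbd
        refine ⟨t + 1, by omega, x'', F'', hstep, Or.inr ?_⟩
        -- the potential increases
        have hm1 : ∀ c, cnt x F c ≤ cnt x' (F' ∪ G₀) c := fun c =>
          (hcntmono x x' F F' hfut.2.2 hFF' c).trans
            (hcntmono x' x' F' (F' ∪ G₀) (Same.refl _ _) Finset.subset_union_left c)
        have hm2 : ∀ c, cnt x' (F' ∪ G₀) c ≤ cnt x'' F'' c := fun c =>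
          hcntmono x' x'' (F' ∪ G₀) F'' hm.2.2 hFF'' c
        have hlt : Ψ x F < Ψ x'' F'' := by
          apply Finset.sum_lt_sum
          · intro c' _
            apply Nat.div_le_div_right
            exact Nat.mul_le_mul_left _ ((hm1 c').trans (hm2 c'))
          · refine ⟨c, hc, ?_⟩
            have hpos := hg.posN c
            have h1' : 2 ^ (a l + b + 1) * cnt x F c + g.N0 c ≤
                2 ^ (a l + b + 1) * cnt x'' F'' c := by
              have e1 : 2 ^ (a l + b + 1) * cnt x F c ≤ 2 ^ (a l + b + 1) * cnt x' (F' ∪ G₀) c :=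
                Nat.mul_le_mul_left _ (hm1 c)
              have e2 : 2 ^ (a l + b + 1) * cnt x' (F' ∪ G₀) c + g.N0 c <
                2 ^ (a l + b + 1) * cnt x'' F'' c := hinc
              omega
            calc 2 ^ (a l + b + 1) * cnt x F c / g.N0 c
                < 2 ^ (a l + b + 1) * cnt x F c / g.N0 c + 1 := Nat.lt_succ_self _
              _ = (2 ^ (a l + b + 1) * cnt x F c + g.N0 c) / g.N0 c := by
                  rw [Nat.add_div_right _ hpos]
              _ ≤ _ := Nat.div_le_div_right h1'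
        exact hlt
    · -- the upper layers are good
      obtain ⟨hacc, hfl⟩ := w4 hkeep hflip hp'
      obtain ⟨G₀, Φ₀, h1, hgd, hG, hΦ⟩ := hC'some x' F' G Φ hsome
      refine ⟨t, by omega, x', F', hp, Or.inl (Or.inr ⟨G₀, Φ₀, h1, K, G', Φ', ?_, ?_, hG'c, ?_,
        hΦ'c, ?_⟩)⟩
      · intro z hz
        have hzZ : z ∉ Z := hz l le_rfl
        rw [hK z (fun l' hl' => hz l' (by omega)), hK₁n z hzZ]
      · exact Finset.Subset.trans (by rw [hG]; exact Finset.subset_union_left) hGG'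
      · exact Finset.Subset.trans (by rw [hΦ]; exact Finset.subset_union_left) hΦΦ'
      · intro x'' hx'' l' hl' hl'D c hc
        rcases Nat.lt_or_ge l l' with hlt | hge
        · exact herr x'' hx'' l' hlt hl'D c hc
        · obtain rfl : l = l' := le_antisymm hl' hge
          have hx2 : Mv g.X g.fib x' (F' ∪ G) Φ x'' :=
            hx''.mono (Finset.union_subset_union_right hGG') hΦΦ'
          have hdisjZ : ∀ z ∈ Z, ∀ l', l' ≠ l → z ∉ g.Z l' := by
            intro z hz l' hne hz'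
            exact Finset.disjoint_left.mp (hg.disZ l' l hne) hz' hz
          have hKZ : ∀ z ∈ Z, (z ∈ K ↔ ¬ g.acc K₀ z x) := by
            intro z hz
            rw [hK z (fun l' hl' => hdisjZ z hz l' (by omega)), hK₁Z z hz]
          have haccK : ∀ z ∈ Z, ∀ y, (g.acc K z y ↔ g.acc K₀ z y) := by
            intro z hz y
            refine hg.sees l z hz K K₀ ?_ y
            intro l' hl' p hp0
            have hpn : ∀ l'', l'' ≠ l' → p ∉ g.Z l'' := by
              intro l'' hne hp1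
              exact Finset.disjoint_left.mp (hg.disZ l'' l' hne) hp1 hp0
            rw [hK p (fun l'' hl'' => hpn l'' (by omega)), hK₁n p (hpn l (by omega))]
          -- the errors
          have hsub : (Z.filter fun z => g.gr z = c ∧ ¬ (z ∈ K ↔ ¬ g.acc K z x'')) ⊆
              (Z.filter fun z => g.gr z = c ∧ ¬ g.acc K₀ z x ∧ g.acc K₀ z x') ∪
              (Z.filter fun z => g.gr z = c ∧ ¬ g.acc K₀ z x' ∧ g.acc K₀ z x'') := by
            intro z hz
            simp only [Finset.mem_filter, Finset.mem_union] at hz ⊢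
            obtain ⟨hzZ, hzc, hze⟩ := hz
            rw [hKZ z hzZ, haccK z hzZ] at hze
            have hkeepz : g.acc K₀ z x → g.acc K₀ z x'' := by
              intro hzQ
              exact hkeep x' F' G Φ hsome z hzZ (hacc z hzZ hzQ) x'' hx2.same
            tauto
          have hcard := (Finset.card_le_card hsub).trans (Finset.card_union_le _ _)
          have hA := hfl c hc
          have hB := hflip x' F' G Φ hsome x'' hx2 c hc
          set E := (Z.filter fun z => g.gr z = c ∧ ¬ (z ∈ K ↔ ¬ g.acc K z x'')).card with hE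
          have hmul : 2 ^ b * E ≤ 2 * (t + 1) * g.N0 c := by
            calc 2 ^ b * E ≤ 2 ^ b * ((Z.filter fun z => g.gr z = c ∧ ¬ g.acc K₀ z x ∧
                  g.acc K₀ z x').card + (Z.filter fun z => g.gr z = c ∧ ¬ g.acc K₀ z x' ∧
                  g.acc K₀ z x'').card) := Nat.mul_le_mul_left _ hcard
              _ ≤ 2 * t * g.N0 c + 2 * g.N0 c := by rw [mul_add]; exact Nat.add_le_add hA hB
              _ = 2 * (t + 1) * g.N0 c := by ring
          have h6 : 2 ^ (τ + 1) * (2 ^ R * E) ≤ 2 ^ (τ + 1) * g.N0 c := by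
            calc 2 ^ (τ + 1) * (2 ^ R * E) = 2 ^ (R + 1 + τ) * E := by
                  rw [← mul_assoc, ← pow_add]; congr 2; ring
              _ ≤ 2 ^ b * E := Nat.mul_le_mul_right _ (Nat.pow_le_pow_right (by norm_num) hb)
              _ ≤ 2 * (t + 1) * g.N0 c := hmul
              _ ≤ 2 ^ (τ + 1) * g.N0 c := by
                  apply Nat.mul_le_mul_right
                  rw [pow_succ]
                  omega
          exact Nat.le_of_mul_le_mul_left h6 (by positivity)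
  have key : ∀ k : ℕ, ∀ (x : S.X N) (F : Finset (List Bool)),
      2 ^ (a l + b + 1 + β) ≤ Ψ x F + k →
      ∃ t ≤ (k + 1) * (T + 1), ∃ (x' : S.X N) (F' : Finset (List Bool)),
      Path g.X g.fib C (pz n q zm ^ (D + 1)) t x F x' F' ∧ Done x' F' := by
    intro k
    induction k with
    | zero =>
      intro x F hk
      obtain ⟨t, ht, x', F', hp, h⟩ := phase x F
      rcases h with h | h
      · exact ⟨t, by simpa using ht, x', F', hp, h⟩
      · have := hΨle x' F'
        omega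
    | succ k ih =>
      intro x F hk
      obtain ⟨t, ht, x', F', hp, h⟩ := phase x F
      rcases h with h | h
      · refine ⟨t, ?_, x', F', hp, h⟩
        calc t ≤ T + 1 := ht
          _ ≤ (k + 1 + 1) * (T + 1) := Nat.le_mul_of_pos_left _ (by omega)
      · obtain ⟨t', ht', x'', F'', hp'', h''⟩ := ih x' F' (by omega)
        refine ⟨t + t', ?_, x'', F'', hp.trans hp'', h''⟩
        calc t + t' ≤ (T + 1) + (k + 1) * (T + 1) := Nat.add_le_add ht ht'
          _ = (k + 1 + 1) * (T + 1) := by ring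
  intro x F
  obtain ⟨t, ht, x', F', h⟩ := key (2 ^ (a l + b + 1 + β)) x F (Nat.le_add_left _ _)
  refine ⟨t, le_trans ht ?_, x', F', h⟩
  have h1 : 1 ≤ 2 ^ (a l + b + 1 + β) := Nat.one_le_two_pow
  have h2 : 2 ^ (a l + b + β + 2) = 2 * 2 ^ (a l + b + 1 + β) := by
    rw [← pow_succ']; congr 1; ring
  rw [h2]
  exact Nat.mul_le_mul (by omega) hT

end Pool.Agent.LibAA59
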