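import Pool.Agent.LibAA59.W5

/-!
All layers.
-/

namespace Pool.Agent.LibAA59

open Classical Pool.Agent.LibAL48

variable {S : SysA} {N : ℕ} {ι κ γ : Type}

/-- the parameters `(a k, τ k)` -/
private def W6_s (R β : ℕ) : ℕ → ℕ × ℕ
  | 0 => (3, 0)
  | k + 1 => ((W6_s R β k).1 + (R + 1 + (W6_s R β k).2) + β + 2,
      (W6_s R β k).1 + (R + 1 + (W6_s R β k).2) + β + 2 + (R + 1 + (W6_s R β k).2) + β + 3 +
        (W6_s R β k).2)

private theorem W6_le (R β k : ℕ) : (W6_s R β k).1 ≤ 8 ^ k * (R + β + 4) ∧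
    (W6_s R β k).2 ≤ 8 ^ k * (R + β + 4) := by
  induction k with
  | zero =>
    constructor
    · change 3 ≤ 8 ^ 0 * (R + β + 4)
      rw [pow_zero, one_mul]
      omega
    · exact Nat.zero_le _
  | succ k ih =>
    obtain ⟨h1, h2⟩ := ih
    have h3 : R + β + 4 ≤ 8 ^ k * (R + β + 4) := Nat.le_mul_of_pos_left _ (by positivity)
    have h4 : 8 ^ (k + 1) * (R + β + 4) = 8 * (8 ^ k * (R + β + 4)) := by ring
    rw [h4]
    constructor
    · change (W6_s R β k).1 + (R + 1 + (W6_s R β k).2) + β + 2 ≤ _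
      omega
    · change (W6_s R β k).1 + (R + 1 + (W6_s R β k).2) + β + 2 + (R + 1 + (W6_s R β k).2) + β + 3 +
        (W6_s R β k).2 ≤ _
      omega

private theorem W6_sp (hSim : Sim S) {g : GameA S N ι κ γ} {n q zm β R D : ℕ}
    (hg : g.Ok n q zm β) (k : ℕ) (hk : k ≤ D) : ∃ T, T + 1 ≤ 2 ^ (W6_s R β k).2 ∧
      Sp g n q zm R D (fun l => (W6_s R β (D - l)).1) (D - k) T := by
  induction k with
  | zero =>
    refine ⟨0, by simp [W6_s], ?_⟩
    intro K₀ C hC x F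
    rw [Nat.sub_zero] at hC ⊢
    refine ⟨0, le_rfl, x, F, Path.nil x F, ?_⟩
    rcases hCe : C x F with _ | ⟨G, Φ⟩
    · exact Or.inl rfl
    · refine Or.inr ⟨G, Φ, rfl, K₀, G, Φ, fun _ _ => Iff.rfl, subset_rfl, (hC x F G Φ hCe).1,
        subset_rfl, (hC x F G Φ hCe).2, ?_⟩
      intro x'' _ l' h1 h2
      omega
  | succ k ih =>
    obtain ⟨T, hT, hS⟩ := ih (by omega)
    have e1 : D - k = (D - (k + 1)) + 1 := by omega
    rw [e1] at hS
    have h1 := w5 hSim (b := R + 1 + (W6_s R β k).2) (τ := (W6_s R β k).2) hg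
      (show D - (k + 1) < D by omega) hS hT le_rfl (by
        have e2 : D - (D - (k + 1) + 1) = k := by omega
        have e3 : D - (D - (k + 1)) = k + 1 := by omega
        show (W6_s R β (D - (D - (k + 1) + 1))).1 + _ + β + 2 ≤ (W6_s R β (D - (D - (k + 1)))).1
        rw [e2, e3]
        exact le_rfl)
    refine ⟨_, ?_, h1⟩
    have e3 : D - (D - (k + 1)) = k + 1 := by omega
    show 2 ^ ((W6_s R β (D - (D - (k + 1)))).1 + (R + 1 + (W6_s R β k).2) + β + 2) *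
      2 ^ (W6_s R β k).2 + 1 ≤ 2 ^ (W6_s R β (k + 1)).2
    rw [e3, ← pow_add]
    have e4 : (W6_s R β (k + 1)).2 = ((W6_s R β (k + 1)).1 + (R + 1 + (W6_s R β k).2) + β + 2 +
        (W6_s R β k).2) + 1 := by
      change (W6_s R β k).1 + (R + 1 + (W6_s R β k).2) + β + 2 + (R + 1 + (W6_s R β k).2) + β + 3 +
        (W6_s R β k).2 = (((W6_s R β k).1 + (R + 1 + (W6_s R β k).2) + β + 2) +
        (R + 1 + (W6_s R β k).2) + β + 2 + (W6_s R β k).2) + 1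
      omega
    rw [e4, pow_succ]
    have h5 : 1 ≤ 2 ^ ((W6_s R β (k + 1)).1 + (R + 1 + (W6_s R β k).2) + β + 2 +
        (W6_s R β k).2) := Nat.one_le_two_pow
    omega

theorem w6 (hSim : Sim S) {g : GameA S N ι κ γ} {n q zm β R D : ℕ} (hg : g.Ok n q zm β)
    (x₀ : S.X N) (hx₀ : ∀ i ∈ g.X, ∀ s ∈ g.fib i, s ∉ Tab x₀) (K₀ : Finset κ) :
    ∃ (K : Finset κ) (x : S.X N) (F : Finset (List Bool)) (Φ : Finset ι),
      (∀ z, (∀ l, z ∉ g.Z l) → (z ∈ K ↔ z ∈ K₀)) ∧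
      Fut x₀ ∅ (g.X.biUnion g.fib) x ∧
      (g.X.filter fun i => ¬ ∀ s ∈ g.fib i, s ∉ Tab x).card ≤ 2 ^ (8 ^ D * (R + β + 4)) ∧
      F.card + 1 ≤ pz n q zm ^ ((D + 1) * 2 ^ (8 ^ D * (R + β + 4)) + D) ∧
      Φ.card * 2 ^ 4 ≤ 2 ^ n ∧
      ∀ x', Mv g.X g.fib x F Φ x' → ∀ l < D, ∀ c ∈ g.Gr l,
        2 ^ R * ((g.Z l).filter fun z => g.gr z = c ∧
          ¬ (z ∈ K ↔ ¬ g.acc K z x')).card ≤ g.N0 c := by
  obtain ⟨T, hT, hS⟩ := W6_sp (R := R) hSim hg D le_rfl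
  rw [Nat.sub_self] at hS
  obtain ⟨t, ht, x, F, hpath, h | ⟨G, Φ, hG, K, G', Φ', hK, hGG, hG', hΦΦ, hΦ', hgood⟩⟩ :=
    hS K₀ (fun _ _ => some (∅, ∅)) (fun x F G Φ h => by
      have h1 := Option.some.inj h
      have h2 : G = ∅ := (congrArg Prod.fst h1).symm
      have h3 : Φ = ∅ := (congrArg Prod.snd h1).symm
      rw [h2, h3]
      simp) x₀ ∅
  · exact absurd h (by simp)
  obtain ⟨s1, s2, s5⟩ := hpath.sub
  have h8 : T ≤ 2 ^ (8 ^ D * (R + β + 4)) := by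
    have h9 : 2 ^ (W6_s R β D).2 ≤ 2 ^ (8 ^ D * (R + β + 4)) :=
      Nat.pow_le_pow_right (by norm_num) (W6_le R β D).2
    omega
  refine ⟨K, x, F ∪ G', Φ', fun z hz => hK z fun l' _ => hz l', s1, ?_, ?_, ?_, ?_⟩
  · have h1 := hpath.used hg.dis
    have h2 : (g.X.filter fun i => ¬ ∀ s ∈ g.fib i, s ∉ Tab x₀) = ∅ := by
      rw [Finset.filter_eq_empty_iff]
      intro i hi h3
      exact h3 (hx₀ i hi)
    rw [h2, Finset.card_empty, zero_add] at h1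
    omega
  · rw [Finset.card_empty, zero_add, mul_one] at s5
    have hpz := pz_pos n q zm
    calc (F ∪ G').card + 1 ≤ pz n q zm ^ D * (F.card + 1) := hG'
      _ ≤ pz n q zm ^ D * (pz n q zm ^ (D + 1)) ^ t := Nat.mul_le_mul_left _ s5
      _ ≤ pz n q zm ^ D * (pz n q zm ^ (D + 1)) ^ (2 ^ (8 ^ D * (R + β + 4))) :=
          Nat.mul_le_mul_left _ (Nat.pow_le_pow_right (Nat.one_le_pow _ _ hpz) (ht.trans h8))
      _ = pz n q zm ^ ((D + 1) * 2 ^ (8 ^ D * (R + β + 4)) + D) := by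
          rw [← pow_mul, ← pow_add]
          congr 1
          ring
  · have e : D - D = 0 := Nat.sub_self D
    have h1 : Φ'.card * 2 ^ ((W6_s R β (D - D)).1 + 1) ≤ 2 ^ n := hΦ'
    rw [e] at h1
    exact h1
  · intro x' hx' l hl c hc
    exact hgood x' hx' l (Nat.zero_le _) hl c hc

end Pool.Agent.LibAA59
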