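import Pool.Agent.LibAA59.W1

/-!
The end of a stage, one-sided approximation.
-/

namespace Pool.Agent.LibAA59

open Classical Pool.Agent.LibAL48

variable {S : SysA} {N : ℕ} {ι : Type}

theorem w7 {X : Finset ι} {fib : ι → Finset (List Bool)} {acc : ι → S.X N → Prop} {n q : ℕ}
    (hX : X.card = 2 ^ n) (hlen : ∀ i ∈ X, ∀ s ∈ fib i, s.length = N)
    (hc : ∀ i ∈ X, Cert q (acc i)) {x : S.X N} {F : Finset (List Bool)} {Φ : Finset ι}
    (hF : ∀ i ∈ X, F.card + q < (fib i).card)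
    (hu : (X.filter fun i => ¬ ∀ s ∈ fib i, s ∉ Tab x).card * 2 ^ 4 ≤ 2 ^ n)
    (hΦ : Φ.card * 2 ^ 4 ≤ 2 ^ n) :
    ∃ x', Mv X fib x F Φ x' ∧
      ((∃ i ∈ X, acc i x' ∧ ∃ s ∈ fib i, s ∈ Tab x') ∨
        2 ^ n < 2 * (X.filter fun i => ¬ acc i x' ∧ ∀ s ∈ fib i, s ∉ Tab x').card) := by
  by_cases h : ∃ i ∈ X, (∀ s ∈ fib i, s ∉ Tab x) ∧ i ∉ Φ ∧ acc i x
  · obtain ⟨i, hi, hd, hiΦ, hacc⟩ := h
    obtain ⟨V, hVq, hV⟩ := hc i hi x hacc
    have hcard : (S.bad (F ∪ V)).card < (fib i).card := by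
      have h0 := S.card_bad (F ∪ V)
      have h1 := Finset.card_union_le F V
      have h2 := hF i hi
      omega
    obtain ⟨s, hs, hsn⟩ := Finset.exists_mem_notMem_of_card_lt_card hcard
    obtain ⟨x', t1, t2⟩ := exists_add x (F ∪ V) {s} (by
      intro s' hs'
      rw [Finset.mem_singleton] at hs'
      rw [hs']
      exact hlen i hi s hs) (by
      rw [Finset.disjoint_singleton_left]
      exact hsn)
    have hst : s ∈ Tab x' := by
      rw [t1]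
      exact Or.inr (by simp)
    refine ⟨x', Or.inr ⟨i, hi, hd, hiΦ, ?_, ?_, t2.mono Finset.subset_union_left⟩,
      Or.inl ⟨i, hi, hV x' (t2.mono Finset.subset_union_right), s, hs, hst⟩⟩
    · rw [t1]
      exact Set.subset_union_left
    · rw [t1]
      refine Set.union_subset_union_right _ (Finset.coe_subset.2 ?_)
      rw [Finset.singleton_subset_iff]
      exact hs
  · refine ⟨x, Or.inl rfl, Or.inr ?_⟩
    have hsub : X ⊆ (X.filter fun i => ¬ acc i x ∧ ∀ s ∈ fib i, s ∉ Tab x) ∪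
        ((X.filter fun i => ¬ ∀ s ∈ fib i, s ∉ Tab x) ∪ Φ) := by
      intro i hi
      rw [Finset.mem_union, Finset.mem_union, Finset.mem_filter, Finset.mem_filter]
      by_cases h1 : ∀ s ∈ fib i, s ∉ Tab x
      · by_cases h2 : i ∈ Φ
        · exact Or.inr (Or.inr h2)
        · exact Or.inl ⟨hi, fun h3 => h ⟨i, hi, h1, h2, h3⟩, h1⟩
      · exact Or.inr (Or.inl ⟨hi, h1⟩)
    have h1 := Finset.card_le_card hsub
    have h2 := Finset.card_union_le (X.filter fun i => ¬ acc i x ∧ ∀ s ∈ fib i, s ∉ Tab x)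
      ((X.filter fun i => ¬ ∀ s ∈ fib i, s ∉ Tab x) ∪ Φ)
    have h3 := Finset.card_union_le (X.filter fun i => ¬ ∀ s ∈ fib i, s ∉ Tab x) Φ
    rw [hX] at h1
    have h4 : 0 < 2 ^ n := Nat.pow_pos (by norm_num)
    omega

/-- The size of `pz` for layers of exponents below `L`. -/
theorem pz_num {n L i : ℕ} (hn : n ≤ L) :
    pz n (2 ^ L) ((i + 1) * 2 ^ L) ≤ 2 ^ (20 * L + 10 * i + 20) := by
  have e1 : i + 1 ≤ 2 ^ i := (Nat.lt_two_pow_self (n := i))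
  have hm : (i + 1) * 2 ^ L ≤ 2 ^ (L + i) := by
    rw [Nat.add_comm L i, pow_add]
    exact Nat.mul_le_mul_right _ e1
  obtain ⟨m, hmd⟩ : ∃ m, m = (i + 1) * 2 ^ L := ⟨_, rfl⟩
  rw [← hmd] at hm ⊢
  have h1 : 1 ≤ 2 ^ L := Nat.one_le_two_pow
  have hq : 2 ^ L ≤ 2 ^ (L + i) := Nat.pow_le_pow_right (by norm_num) (by omega)
  obtain ⟨A, hA⟩ : ∃ A, A = 2 ^ (L + i) := ⟨_, rfl⟩
  have hA1 : 1 ≤ A := by rw [hA]; exact Nat.one_le_two_pow
  rw [← hA] at hm hq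
  obtain ⟨q, hqd⟩ : ∃ q, q = 2 ^ L := ⟨_, rfl⟩
  rw [← hqd] at hq h1 ⊢
  have hn2 : 2 ^ n ≤ A := by
    rw [hA]
    exact Nat.pow_le_pow_right (by norm_num) (by omega)
  have b1 : m ^ 2 * (1 + q) + m ^ 2 * q * (m * q + q + 3) + 1 ≤ 8 * A ^ 5 := by
    have c1 : 1 + q ≤ 2 * A := by omega
    have c2 : m ^ 2 ≤ A ^ 2 := Nat.pow_le_pow_left hm 2
    have c3 : m * q + q + 3 ≤ 5 * A ^ 2 := by
      have d1 : m * q ≤ A * A := Nat.mul_le_mul hm hq
      nlinarith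
    calc m ^ 2 * (1 + q) + m ^ 2 * q * (m * q + q + 3) + 1
        ≤ A ^ 2 * (2 * A) + A ^ 2 * A * (5 * A ^ 2) + 1 := by gcongr
      _ ≤ 8 * A ^ 5 := by
        have d1 : A ^ 3 ≤ A ^ 5 := Nat.pow_le_pow_right hA1 (by norm_num)
        have d2 : 1 ≤ A ^ 5 := Nat.one_le_pow _ _ hA1
        nlinarith
  unfold pz
  calc 2 ^ n * (m * (2 * ((m ^ 2 * (1 + q) + m ^ 2 * q * (m * q + q + 3) + 1) * q) + 1)) +
        m * q + 1
      ≤ A * (A * (2 * ((8 * A ^ 5) * A) + 1)) + A * A + 1 := by gcongr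
    _ ≤ 32 * A ^ 8 := by
        have d1 : A ^ 2 ≤ A ^ 8 := Nat.pow_le_pow_right hA1 (by norm_num)
        have d2 : 1 ≤ A ^ 8 := Nat.one_le_pow _ _ hA1
        nlinarith
    _ = 2 ^ (5 + (L + i) * 8) := by rw [hA, ← pow_mul, pow_add]; norm_num
    _ ≤ 2 ^ (20 * L + 10 * i + 20) := Nat.pow_le_pow_right (by norm_num) (by omega)

end Pool.Agent.LibAA59
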